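import Pool.Agent.W5h41.DL.H

set_option autoImplicit false

/-! # Multiplicative functions with mean zero for trivial reasons -/

namespace Pool.Agent.W5h41.DL

open Finset Filter Topology

/-- the absolute value -/
noncomputable def ab (g : ℕ → ℂ) (n : ℕ) : ℂ := ((‖g n‖ : ℝ) : ℂ)

theorem ab_norm {g : ℕ → ℂ} (n : ℕ) : ‖ab g n‖ = ‖g n‖ := by
  unfold ab; rw [Complex.norm_real, norm_norm]

/-- the other series -/
noncomputable def qr (g : ℕ → ℂ) (p : ℕ) : ℝ := if p.Prime then (1 - ‖g p‖) / p else 0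

theorem qr_nonneg {g : ℕ → ℂ} (hg : ∀ n, ‖g n‖ ≤ 1) (p : ℕ) : 0 ≤ qr g p := by
  unfold qr
  split_ifs
  · have := hg p
    apply div_nonneg (by linarith) (Nat.cast_nonneg _)
  · exact le_rfl

/-- the local factor of the absolute value, as a real number -/
noncomputable def RF (g : ℕ → ℂ) (p : ℕ) : ℝ := (1 - 1 / (p : ℝ)) * ∑' j : ℕ, ‖g (p ^ j)‖ / (p : ℝ) ^ j

theorem LF_ab (g : ℕ → ℂ) (p : ℕ) : LF (ab g) p = (RF g p : ℂ) := by
  unfold LF RF ab
  push_cast
  rfl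

theorem rf_summable {g : ℕ → ℂ} (hg : ∀ n, ‖g n‖ ≤ 1) {p : ℕ} (hp : 2 ≤ p) :
    Summable (fun j : ℕ => ‖g (p ^ j)‖ / (p : ℝ) ^ j) := by
  refine (lf_summable hg hp).norm.congr fun j => ?_
  rw [norm_div, norm_pow, Complex.norm_natCast]

theorem rf_nonneg {g : ℕ → ℂ} {p : ℕ} (hp : 2 ≤ p) : 0 ≤ RF g p := by
  have hp2 : (2 : ℝ) ≤ p := by exact_mod_cast hp
  have h1 : 1 / (p : ℝ) < 1 := by rw [div_lt_one (by linarith)]; linarith
  unfold RF
  apply mul_nonneg (by linarith)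
  exact tsum_nonneg fun j => by positivity

theorem lf_le_rf {g : ℕ → ℂ} (hg : ∀ n, ‖g n‖ ≤ 1) {p : ℕ} (hp : 2 ≤ p) : ‖LF g p‖ ≤ RF g p := by
  have hp2 : (2 : ℝ) ≤ p := by exact_mod_cast hp
  have h1 : 1 / (p : ℝ) < 1 := by rw [div_lt_one (by linarith)]; linarith
  have h2 : (0 : ℝ) < 1 - 1 / (p : ℝ) := by linarith
  unfold LF RF
  rw [norm_mul]
  have e1 : ‖(1 - 1 / (p : ℂ))‖ = 1 - 1 / (p : ℝ) := by
    have : (1 - 1 / (p : ℂ)) = ((1 - 1 / (p : ℝ) : ℝ) : ℂ) := by push_cast; rfl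
    rw [this, Complex.norm_real, Real.norm_of_nonneg h2.le]
  rw [e1]
  apply mul_le_mul_of_nonneg_left _ h2.le
  apply tsum_of_norm_bounded (rf_summable hg hp).hasSum
  intro j
  rw [norm_div, norm_pow, Complex.norm_natCast]

theorem rf_le_one {g : ℕ → ℂ} (hg : ∀ n, ‖g n‖ ≤ 1) {p : ℕ} (hp : 2 ≤ p) : RF g p ≤ 1 := by
  have h1 := lf_norm (g := ab g) (fun n => by rw [ab_norm]; exact hg n) hp
  rw [LF_ab, Complex.norm_real] at h1
  exact (le_abs_self _).trans h1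

theorem rf_le {g : ℕ → ℂ} (hg : ∀ n, ‖g n‖ ≤ 1) (hg1 : g 1 = 1) {p : ℕ} (hp : 2 ≤ p) :
    RF g p ≤ Real.exp (-((1 - ‖g p‖) / p / 2)) := by
  have hp2 : (2 : ℝ) ≤ p := by exact_mod_cast hp
  have hp0 : (0 : ℝ) < p := by linarith
  have h1 : 1 / (p : ℝ) ≤ 1 / 2 := by
    apply one_div_le_one_div_of_le (by norm_num) hp2
  have h2 : (0 : ℝ) < 1 - 1 / (p : ℝ) := by linarith
  have h0 : 0 < 1 / (p : ℝ) := by positivity
  have hlt : 1 / (p : ℝ) < 1 := by linarith
  unfold RF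
  rw [← (rf_summable hg hp).sum_add_tsum_nat_add 2, sum_range_succ, sum_range_one, pow_zero, pow_one, hg1]
  set R : ℝ := ∑' j : ℕ, ‖g (p ^ (j + 2))‖ / (p : ℝ) ^ (j + 2) with hR
  have e2 : R ≤ (1 / (p : ℝ)) ^ 2 / (1 - 1 / (p : ℝ)) := by
    rw [← geom_tail hp 2]
    have hs : Summable (fun j : ℕ => (1 / (p : ℝ)) ^ (j + 2)) :=
      (summable_nat_add_iff 2).2 (summable_geometric_of_lt_one (by positivity) hlt)
    apply Summable.tsum_le_tsum _ ((summable_nat_add_iff 2).2 (rf_summable hg hp)) hs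
    intro j
    rw [one_div, inv_pow, ← one_div]
    gcongr
    exact hg _
  have e3 : (1 - 1 / (p : ℝ)) * R ≤ (1 / (p : ℝ)) ^ 2 := by
    calc (1 - 1 / (p : ℝ)) * R ≤ (1 - 1 / (p : ℝ)) * ((1 / (p : ℝ)) ^ 2 / (1 - 1 / (p : ℝ))) := by gcongr
      _ = (1 / (p : ℝ)) ^ 2 := by rw [mul_div_assoc', mul_div_cancel_left₀ _ h2.ne']
  have h4 := Real.add_one_le_exp (-((1 - ‖g p‖) / p / 2))
  refine le_trans ?_ h4
  have e5 : (1 - ‖g p‖) / (p : ℝ) = (1 - ‖g p‖) * (1 / p) := by ring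
  have e6 : ‖g p‖ / (p : ℝ) = ‖g p‖ * (1 / p) := by ring
  rw [e5, pow_one, e6, norm_one, pow_zero, div_one]
  set x : ℝ := 1 / (p : ℝ) with hx
  set a : ℝ := ‖g p‖ with ha
  have ha1 : a ≤ 1 := hg p
  nlinarith [mul_nonneg (mul_nonneg (sub_nonneg.2 ha1) h0.le) (sub_nonneg.2 h1)]

/-- the product of the local factors of the absolute value tends to zero -/
theorem rf_prod {g : ℕ → ℂ} (hg : ∀ n, ‖g n‖ ≤ 1) (hg1 : g 1 = 1) (hs : ¬ Summable (qr g)) :
    Tendsto (fun P : ℕ => ∏ p ∈ S5 P, RF g p) atTop (𝓝 0) := by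
  have h1 : Tendsto (fun P : ℕ => ∑ p ∈ range P, qr g p) atTop atTop :=
    (not_summable_iff_tendsto_nat_atTop_of_nonneg (qr_nonneg hg)).1 hs
  have h2 : Tendsto (fun P : ℕ => Real.exp (-(∑ p ∈ range P, qr g p - 5) / 2)) atTop (𝓝 0) := by
    apply Real.tendsto_exp_atBot.comp
    have h3 : Tendsto (fun P : ℕ => (∑ p ∈ range P, qr g p - 5) / 2) atTop atTop :=
      (tendsto_atTop_add_const_right _ _ h1).atTop_div_const (by norm_num)
    refine (tendsto_neg_atTop_atBot.comp h3).congr fun P => ?_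
    simp only [Function.comp_apply]
    ring
  refine squeeze_zero (fun P => prod_nonneg fun p hp => ?_) (fun P => ?_) h2
  · unfold S5 at hp
    rw [mem_filter] at hp
    exact rf_nonneg hp.2.1.two_le
  · have h3 : ∏ p ∈ S5 P, RF g p ≤ ∏ p ∈ S5 P, Real.exp (-((1 - ‖g p‖) / p / 2)) := by
      apply Finset.prod_le_prod
      · intro p hp
        unfold S5 at hp
        rw [mem_filter] at hp
        exact rf_nonneg hp.2.1.two_le
      · intro p hp
        unfold S5 at hp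
        rw [mem_filter] at hp
        exact rf_le hg hg1 hp.2.1.two_le
    refine h3.trans ?_
    rw [← Real.exp_sum]
    apply Real.exp_le_exp.2
    have h4 : ∑ p ∈ range P, qr g p ≤ ∑ p ∈ S5 P, (1 - ‖g p‖) / (p : ℝ) + 5 := by
      have h5 : ∑ p ∈ range P, qr g p ≤ ∑ p ∈ S5 P, qr g p + ∑ p ∈ range 5, (1 : ℝ) := by
        have h6 : ∀ p, qr g p ≤ 1 := by
          intro p
          unfold qr
          split_ifs with hp
          · have : (1 : ℝ) ≤ p := by exact_mod_cast hp.one_lt.le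
            rw [div_le_one (by linarith)]
            have := norm_nonneg (g p)
            linarith
          · norm_num
        rw [← sum_sdiff (show S5 P ⊆ range P from filter_subset _ _), add_comm]
        apply add_le_add_right
        have h7 : ∑ p ∈ range P \ S5 P, qr g p ≤ ∑ p ∈ (range P \ S5 P).filter (· < 5), (1 : ℝ) := by
          rw [sum_filter]
          apply sum_le_sum
          intro p hp
          split_ifs with h8
          · exact h6 p
          · unfold qr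
            rw [if_neg]
            intro h9
            rw [Finset.mem_sdiff] at hp
            apply hp.2
            unfold S5
            rw [mem_filter]
            exact ⟨hp.1, h9, by omega⟩
        refine h7.trans ?_
        apply sum_le_sum_of_subset_of_nonneg
        · intro p hp
          rw [mem_filter] at hp
          exact mem_range.2 hp.2
        · intro _ _ _
          norm_num
      rw [sum_const, card_range] at h5
      have h8 : ∑ p ∈ S5 P, qr g p = ∑ p ∈ S5 P, (1 - ‖g p‖) / (p : ℝ) := by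
        apply sum_congr rfl
        intro p hp
        unfold S5 at hp
        rw [mem_filter] at hp
        unfold qr
        rw [if_pos hp.2.1]
      rw [h8] at h5
      simp only [nsmul_eq_mul, mul_one] at h5
      push_cast at h5
      exact h5
    rw [sum_neg_distrib, ← sum_div]
    linarith

theorem period_sum {M : ℕ} (hM : 0 < M) (f : ℕ → ℝ) (hf : ∀ n, 0 ≤ f n) (N : ℕ) :
    ∑ n ∈ Icc 1 N, f (n % M) ≤ ((N / M : ℕ) + 1 : ℝ) * ∑ r ∈ range M, f r := by
  have h1 : ∀ q : ℕ, ∑ n ∈ range (M * q), f (n % M) = q * ∑ r ∈ range M, f r := by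
    intro q
    induction q with
    | zero => simp
    | succ q ih =>
      rw [Nat.mul_succ, sum_range_add, ih]
      have : ∑ x ∈ range M, f ((M * q + x) % M) = ∑ r ∈ range M, f r := by
        apply sum_congr rfl
        intro r hr
        rw [mem_range] at hr
        rw [Nat.mul_add_mod, Nat.mod_eq_of_lt hr]
      rw [this]
      push_cast
      ring
  have h2 := h1 (N / M + 1)
  push_cast at h2
  rw [← h2]
  apply sum_le_sum_of_subset_of_nonneg
  · intro n hn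
    rw [mem_Icc] at hn
    rw [mem_range]
    exact hn.2.trans_lt (Nat.lt_mul_div_succ N hM)
  · intro _ _ _
    exact hf _

theorem g3_small {g : ℕ → ℂ} (hg1 : g 1 = 1) (hg : ∀ n, ‖g n‖ ≤ 1) {n N P K : ℕ} (hn : n ≠ 0)
    (hN : n ≤ N) (hP : P ≤ N) : ‖g3 g n‖ ≤ ‖VV (SP P) K (GG g) n‖ +
      ∑ p ∈ SP P, (if p ^ (K + 1) ∣ n then (2 : ℝ) else 0) := by
  by_cases h : ∃ p ∈ SP P, p ^ (K + 1) ∣ n
  · obtain ⟨p, hp, h1⟩ := h
    have h2 : (if p ^ (K + 1) ∣ n then (2 : ℝ) else 0) ≤ ∑ p ∈ SP P, (if p ^ (K + 1) ∣ n then (2 : ℝ) else 0) :=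
      single_le_sum (f := fun p => if p ^ (K + 1) ∣ n then (2 : ℝ) else 0)
        (fun _ _ => by split_ifs <;> norm_num) hp
    rw [if_pos h1] at h2
    have := g3_norm hg n
    have := norm_nonneg (VV (SP P) K (GG g) n)
    linarith
  · push Not at h
    have h3 : ‖g3 g n‖ ≤ ‖VV (SP P) K (GG g) n‖ := by
      rw [g3_prod hg1 hn hN, ← prod_sdiff (SP_mono hP), norm_mul]
      have h4 : ∏ p ∈ SP P, g (p ^ n.factorization p) = VV (SP P) K (GG g) n := by
        unfold VV GG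
        apply prod_congr rfl
        intro p hp
        rw [ee_eq (SP_prime hp) hn (h p hp)]
      rw [h4]
      have h5 : ‖∏ p ∈ SP N \ SP P, g (p ^ n.factorization p)‖ ≤ 1 := prod_norm_le _ _ fun _ _ => hg _
      have := norm_nonneg (VV (SP P) K (GG g) n)
      nlinarith
    have h6 : 0 ≤ ∑ p ∈ SP P, (if p ^ (K + 1) ∣ n then (2 : ℝ) else 0) :=
      sum_nonneg fun _ _ => by split_ifs <;> norm_num
    linarith

theorem VV_ab (S : Finset ℕ) (K : ℕ) (g : ℕ → ℂ) (n : ℕ) :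
    VV S K (GG (ab g)) n = ((‖VV S K (GG g) n‖ : ℝ) : ℂ) := by
  unfold VV GG ab
  rw [norm_prod]
  push_cast
  rfl

/-- the mean of the absolute value is zero -/
theorem mean_zero {g : ℕ → ℂ} (hg1 : g 1 = 1) (hg : ∀ n, ‖g n‖ ≤ 1) (hs : ¬ Summable (qr g)) {η : ℝ}
    (hη : 0 < η) : ∃ N₀ : ℕ, ∀ N ≥ N₀, ∑ n ∈ Icc 1 N, ‖g3 g n‖ ≤ η * N := by
  have hab : ∀ n, ‖ab g n‖ ≤ 1 := fun n => by rw [ab_norm]; exact hg n
  have hl := rf_prod hg hg1 hs
  obtain ⟨P₁, hP₁⟩ := eventually_atTop.1 (hl.eventually (ge_mem_nhds (by positivity : (0 : ℝ) < η / 8)))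
  obtain ⟨P, hPd⟩ : ∃ P : ℕ, P = max P₁ 2 := ⟨_, rfl⟩
  have hP1 : P₁ ≤ P + 1 := by rw [hPd]; exact (le_max_left _ _).trans (Nat.le_succ _)
  have hP2 : 2 ≤ P := by rw [hPd]; exact le_max_right _ _
  have h1 := hP₁ _ hP1
  rw [← S5_eq] at h1
  have ht : Tendsto (fun K : ℕ => (2 * ((P : ℝ) + 1)) * (1 / 2) ^ K) atTop (𝓝 ((2 * ((P : ℝ) + 1)) * 0)) :=
    (tendsto_pow_atTop_nhds_zero_of_lt_one (by norm_num) (by norm_num)).const_mul _
  rw [mul_zero] at ht
  obtain ⟨K, hK⟩ := (ht.eventually (ge_mem_nhds (by positivity : (0 : ℝ) < η / 8))).exists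
  have e0 : (1 / 2 : ℝ) ^ K = 1 / 2 ^ K := by rw [one_div, inv_pow, one_div]
  rw [e0] at hK
  have hSp : ∀ p ∈ SP P, p.Prime := fun p hp => SP_prime hp
  have hS2 : 2 ∈ SP P := mem_SP.2 ⟨by norm_num, hP2, Nat.prime_two⟩
  have hM := MM_pos hSp K
  have hMR : (0 : ℝ) < MM (SP P) K := by exact_mod_cast hM
  -- the mean of the periodic function
  have hmean : ∑ r ∈ range (MM (SP P) K), ‖VV (SP P) K (GG g) r‖ ≤ (MM (SP P) K : ℝ) * (η / 4) := by
    have h2 := VV_mean hSp K (GG (ab g))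
    simp only [VV_ab] at h2
    have h3 : ‖∏ p ∈ SP P, lm p K (GG (ab g) p) - ∏ p ∈ SP P, LF (ab g) p‖ ≤ 2 * ((P : ℝ) + 1) * (1 / 2 ^ K) := by
      refine (prod_sub_le _ _ _ (fun p hp => ?_) (fun p hp => ?_)).trans ?_
      · exact lm_norm (SP_prime hp).pos fun _ => hab _
      · exact lf_norm hab (SP_prime hp).two_le
      · calc ∑ p ∈ SP P, ‖lm p K (GG (ab g) p) - LF (ab g) p‖ ≤ ∑ _p ∈ SP P, (2 / 2 ^ K : ℝ) := by
              apply sum_le_sum
              intro p hp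
              exact lm_lf hab (SP_prime hp).two_le K
          _ = ((SP P).card : ℝ) * (2 / 2 ^ K) := by rw [sum_const, nsmul_eq_mul]
          _ ≤ (P + 1) * (2 / 2 ^ K) := by
              gcongr
              exact_mod_cast SP_card P
          _ = 2 * ((P : ℝ) + 1) * (1 / 2 ^ K) := by ring
    have h4 : ‖∏ p ∈ SP P, LF (ab g) p‖ ≤ η / 8 := by
      rw [← mul_prod_erase _ _ hS2, norm_mul]
      have h5 : ‖LF (ab g) 2‖ ≤ 1 := lf_norm hab le_rfl
      have h6 : ‖∏ p ∈ (SP P).erase 2, LF (ab g) p‖ ≤ η / 8 := by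
        simp only [LF_ab]
        rw [norm_prod]
        refine le_trans (le_of_eq ?_) h1
        apply prod_congr rfl
        intro p hp
        rw [Complex.norm_real, Real.norm_of_nonneg (rf_nonneg (SP_prime (mem_of_mem_erase hp)).two_le)]
      calc ‖LF (ab g) 2‖ * ‖∏ p ∈ (SP P).erase 2, LF (ab g) p‖ ≤ 1 * (η / 8) := by gcongr
        _ = η / 8 := one_mul _
    have h5 : ‖((∑ r ∈ range (MM (SP P) K), ‖VV (SP P) K (GG g) r‖ : ℝ) : ℂ) / (MM (SP P) K : ℂ)‖ ≤ η / 4 := by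
      have e1 : ((∑ r ∈ range (MM (SP P) K), ‖VV (SP P) K (GG g) r‖ : ℝ) : ℂ) / (MM (SP P) K : ℂ) =
          (∏ p ∈ SP P, lm p K (GG (ab g) p) - ∏ p ∈ SP P, LF (ab g) p) + ∏ p ∈ SP P, LF (ab g) p := by
        rw [sub_add_cancel, ← h2]
        push_cast
        rfl
      rw [e1]
      refine (norm_add_le _ _).trans ?_
      linarith
    rw [norm_div, Complex.norm_natCast, Complex.norm_real, div_le_iff₀ hMR] at h5
    have h6 := (le_abs_self _).trans h5
    linarith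
  refine ⟨max P (MM (SP P) K), fun N hN => ?_⟩
  have hNP : P ≤ N := (le_max_left _ _).trans hN
  have hNM : MM (SP P) K ≤ N := (le_max_right _ _).trans hN
  have hNMR : (MM (SP P) K : ℝ) ≤ N := by exact_mod_cast hNM
  have h2 : ∑ n ∈ Icc 1 N, ‖g3 g n‖ ≤ ∑ n ∈ Icc 1 N, (‖VV (SP P) K (GG g) n‖ +
      ∑ p ∈ SP P, (if p ^ (K + 1) ∣ n then (2 : ℝ) else 0)) := by
    apply sum_le_sum
    intro n hn
    rw [mem_Icc] at hn
    exact g3_small hg1 hg (by omega) hn.2 hNP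
  refine h2.trans ?_
  rw [sum_add_distrib, sum_comm (s := Icc 1 N)]
  have h3 : ∑ p ∈ SP P, ∑ n ∈ Icc 1 N, (if p ^ (K + 1) ∣ n then (2 : ℝ) else 0) ≤ η / 8 * N := by
    calc ∑ p ∈ SP P, ∑ n ∈ Icc 1 N, (if p ^ (K + 1) ∣ n then (2 : ℝ) else 0)
        ≤ ∑ p ∈ SP P, 1 / 2 ^ K * (N : ℝ) := by
          apply sum_le_sum
          intro p hp
          have hpp := (SP_prime hp).two_le
          refine (count_dvd N (pow_pos (by omega) _) (by norm_num)).trans ?_
          apply mul_le_mul_of_nonneg_right _ (Nat.cast_nonneg _)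
          push_cast
          have h2 : (2 : ℝ) ^ (K + 1) ≤ (p : ℝ) ^ (K + 1) := by
            gcongr
            exact_mod_cast hpp
          calc (2 : ℝ) / (p : ℝ) ^ (K + 1) ≤ 2 / 2 ^ (K + 1) := by gcongr
            _ = 1 / 2 ^ K := by rw [pow_succ]; field_simp
      _ = ((SP P).card : ℝ) * (1 / 2 ^ K * N) := by rw [sum_const, nsmul_eq_mul]
      _ ≤ (P + 1) * (1 / 2 ^ K * N) := by
          gcongr
          exact_mod_cast SP_card P
      _ ≤ 2 * (P + 1) * (1 / 2 ^ K) * N := by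
          have : (0 : ℝ) ≤ (P + 1) * (1 / 2 ^ K * N) := by positivity
          linarith
      _ ≤ η / 8 * N := by gcongr
  have h4 : ∑ n ∈ Icc 1 N, ‖VV (SP P) K (GG g) n‖ ≤ η / 2 * N := by
    have h5 := period_sum hM (fun r => ‖VV (SP P) K (GG g) r‖) (fun _ => norm_nonneg _) N
    simp only [VV_mod] at h5
    refine h5.trans ?_
    have h6 : ((N / MM (SP P) K : ℕ) : ℝ) ≤ N / MM (SP P) K := Nat.cast_div_le
    calc (((N / MM (SP P) K : ℕ) : ℝ) + 1) * ∑ r ∈ range (MM (SP P) K), ‖VV (SP P) K (GG g) r‖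
        ≤ ((N : ℝ) / MM (SP P) K + 1) * ((MM (SP P) K : ℝ) * (η / 4)) := by
          apply mul_le_mul (by linarith) hmean
          · exact sum_nonneg fun _ _ => norm_nonneg _
          · positivity
      _ = (N + MM (SP P) K) * (η / 4) := by field_simp
      _ ≤ (N + N) * (η / 4) := by gcongr
      _ = η / 2 * N := by ring
  have : 0 ≤ η * N := by positivity
  linarith

theorem lp_zero {g : ℕ → ℂ} (hg1 : g 1 = 1) (hg : ∀ n, ‖g n‖ ≤ 1) (hs : ¬ Summable (qr g))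
    (c : ℂ →ₗ[ℝ] ℝ) (hc : ∀ z, |c z| ≤ ‖z‖) : LP (fun n => 1 / 2 * c (UU g n - 3 / 2 * 0)) := by
  intro η hη
  obtain ⟨N₀, hN₀⟩ := mean_zero hg1 hg hs (η := η / 5) (by positivity)
  have key : ∀ n : ℕ, |1 / 2 * c (UU g n - 3 / 2 * 0) - 0| ≤
      1 / 2 * (‖g3 g n‖ + if n % 2 = 0 then 0 else ‖g3 g (3 * n + 1)‖) := by
    intro n
    rw [mul_zero, sub_zero, sub_zero, abs_mul, abs_of_pos (by norm_num : (0 : ℝ) < 1 / 2)]
    apply mul_le_mul_of_nonneg_left _ (by norm_num)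
    refine (hc _).trans ?_
    unfold UU
    split_ifs with h0
    · simp
    · exact norm_add_le _ _
  refine ⟨1, fun _ => 1 / ((1 : ℕ) : ℝ), fun _ => 0, one_pos, sta_unif one_pos (by norm_num), fun n => ?_, ?_,
    max N₀ 1, fun N hN => ?_⟩
  · refine (key n).trans ?_
    have := g3_norm hg n
    have := g3_norm hg (3 * n + 1)
    split_ifs <;> linarith
  · simp [hη.le]
  · have h4 := ev_error (w := fun n => ‖g3 g n‖) (fun _ => norm_nonneg _) (by positivity : 0 ≤ η / 5) hN₀ hN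
    calc ∑ n ∈ Icc 1 N, |1 / 2 * c (UU g n - 3 / 2 * 0) - 0|
        ≤ ∑ n ∈ Icc 1 N, 1 / 2 * (‖g3 g n‖ + if n % 2 = 0 then 0 else ‖g3 g (3 * n + 1)‖) :=
          sum_le_sum fun n _ => key n
      _ = 1 / 2 * ∑ n ∈ Icc 1 N, (‖g3 g n‖ + if n % 2 = 0 then 0 else ‖g3 g (3 * n + 1)‖) := by rw [mul_sum]
      _ ≤ 1 / 2 * (5 * (η / 5) * N) := by gcongr
      _ ≤ η * N := by
          have : 0 ≤ η * N := by positivity
          linarith

theorem f2_norm {g : ℕ → ℂ} (hg1 : g 1 = 1) (hg : ∀ n, ‖g n‖ ≤ 1) : ‖F2 g‖ ≤ 2 := by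
  have h1 := F2_eq hg1 hg
  have h2 : F2 g = 2 / 3 * (2 * LF g 2 - 1 / 2) := by rw [h1]; ring
  rw [h2, norm_mul]
  have h3 : ‖(2 / 3 : ℂ)‖ = 2 / 3 := by simp
  have h4 : ‖2 * LF g 2 - 1 / 2‖ ≤ 5 / 2 := by
    refine (norm_sub_le _ _).trans ?_
    rw [norm_mul]
    have h5 := lf_norm hg (p := 2) le_rfl
    have h6 : ‖(2 : ℂ)‖ = 2 := by simp
    have h7 : ‖(1 / 2 : ℂ)‖ = 1 / 2 := by simp
    rw [h6, h7]
    linarith
  rw [h3]
  linarith

/-- MAIN THEOREM, the second case -/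
theorem main_zero {g : ℕ → ℂ} (hgm : Mul g) (hg : ∀ n, ‖g n‖ ≤ 1) (hs : ¬ Summable (qr g)) :
    Tendsto (fun P : ℕ => F2 g * ∏ p ∈ S5 P, LF g p) atTop (𝓝 0) ∧ CoMean g 0 := by
  constructor
  · have h1 := (rf_prod hg hgm.1 hs).const_mul 2
    rw [mul_zero] at h1
    rw [tendsto_zero_iff_norm_tendsto_zero]
    refine squeeze_zero (fun _ => norm_nonneg _) (fun P => ?_) h1
    rw [norm_mul, norm_prod]
    apply mul_le_mul (f2_norm hgm.1 hg)
    · apply Finset.prod_le_prod (fun _ _ => norm_nonneg _)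
      intro p hp
      unfold S5 at hp
      rw [mem_filter] at hp
      exact lf_le_rf hg hp.2.1.two_le
    · exact prod_nonneg fun _ _ => norm_nonneg _
    · norm_num
  · have h1 := mc_part hgm hg Complex.reLm (fun z => Complex.abs_re_le_norm z)
      (lp_zero hgm.1 hg hs Complex.reLm (fun z => Complex.abs_re_le_norm z))
    have h2 := mc_part hgm hg Complex.imLm (fun z => Complex.abs_im_le_norm z)
      (lp_zero hgm.1 hg hs Complex.imLm (fun z => Complex.abs_im_le_norm z))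
    exact comean_of_parts hg h1 h2

end Pool.Agent.W5h41.DL
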