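import Pool.Agent.W5h47.BD.D
import Pool.Agent.W38.BFg
import Pool.Agent.R344.SP.S
import Pool.Agent.R344.SP.Q

set_option autoImplicit false

/-! # Limit periodic functions along the trajectories of the accelerated Collatz map -/

namespace Pool.Agent.W5h41.DL

open Finset Filter Topology
open Pool.Agent.W5h47.BD (T log_le_time zd_union zd_small zd_of T_iter_pos)
open Pool.Agent.H499R2.ND (Dn zd_mono)
open R344.SP (Zs ind ct Wn mem_Wn kappa_bridge core_sets finish iter_cast)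

/-- the number of visits to `A` -/
noncomputable def visits (A : Set ℕ) (n t : ℕ) : ℝ := Zs 1 (ind fun _ => (fun a : ℕ => (a : ℤ)) '' A) 0 t n

open scoped Classical in
theorem visits_eq (A : Set ℕ) (n t : ℕ) :
    visits A n t = ∑ k ∈ range t, (if T^[k] n ∈ A then (1 : ℝ) else 0) := by
  unfold visits Zs
  apply Finset.sum_congr rfl
  intro k _
  unfold ind
  rw [zero_add, iter_cast (T := T) (fun _ => rfl)]
  by_cases h : T^[k] n ∈ A
  · rw [if_pos h, if_pos ⟨_, h, rfl⟩]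
  · rw [if_neg h, if_neg]
    rintro ⟨a, ha, hae⟩
    apply h
    have hae' : ((a : ℕ) : ℤ) = ((T^[k] n : ℕ) : ℤ) := hae
    have : a = T^[k] n := by exact_mod_cast hae'
    rwa [← this]

open scoped Classical in
/-- sets of small density are visited seldom (starting files) -/
theorem rare (κ ε : ℝ) (hκ : κ < 2 / Real.log (4 / 3)) (hε : 0 < ε) :
    ∃ δ : ℝ, 0 < δ ∧ ∀ A : Set ℕ, (∃ N₀ : ℕ, ∀ N ≥ N₀, (((Icc 1 N).filter (· ∈ A)).card : ℝ) ≤ δ * N) →
      ∃ N₁ : ℕ, ∀ N ≥ N₁,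
      (Set.ncard {n : ℕ | 1 ≤ n ∧ n ≤ N ∧ ∃ t : ℕ, (t : ℝ) ≤ κ * Real.log n ∧
        ε * Real.log n < visits A n t} : ℝ) ≤ ε * N := by
  obtain ⟨κ', hκ0, hκκ, hκ1⟩ := kappa_bridge hκ
  obtain ⟨ε₁, hε₁, hcore⟩ := core_sets (d := 1) (by norm_num) isCoprime_one_left hκ0 hκ1
    (ε := ε / 2) (by positivity)
  refine ⟨ε₁ / 4, by positivity, fun A ⟨M₀, hM₀⟩ => ?_⟩
  obtain ⟨N₀, hN₀⟩ := hcore ((M₀ : ℝ) + 1)
  obtain ⟨N₁, hN₁⟩ := finish (α := Unit) hκκ (fun _ n t => visits A n t) hε (by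
    refine ⟨N₀, fun N hN _ S hS => ?_⟩
    refine hN₀ N hN (fun _ => (fun a : ℕ => (a : ℤ)) '' A) ?_ S ?_
    · intro s L hL
      have hM0 : (0 : ℝ) ≤ M₀ := Nat.cast_nonneg _
      have hL1 : 1 ≤ L := by linarith
      have h0 : M₀ ≤ ⌊2 * L⌋₊ := Nat.le_floor (by linarith)
      have h1 := hM₀ _ h0
      have h2 : ((⌊2 * L⌋₊ : ℕ) : ℝ) ≤ 2 * L := Nat.floor_le (by linarith)
      have h3 : ct ((fun a : ℕ => (a : ℤ)) '' A) L ≤ (((Icc 1 ⌊2 * L⌋₊).filter (· ∈ A)).card : ℝ) := by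
        unfold ct
        have hsub : (Wn L).filter (fun n => n ∈ (fun a : ℕ => (a : ℤ)) '' A)
            ⊆ ((Icc 1 ⌊2 * L⌋₊).filter (· ∈ A)).image (fun a : ℕ => (a : ℤ)) := by
          intro x hx
          rw [Finset.mem_filter, mem_Wn] at hx
          obtain ⟨⟨h2, h3⟩, a, ha, rfl⟩ := hx
          rw [Finset.mem_image]
          refine ⟨a, ?_, rfl⟩
          push_cast at h2 h3
          rw [mem_filter, mem_Icc]
          have : (1 : ℝ) ≤ a := by linarith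
          exact ⟨⟨by exact_mod_cast this, Nat.le_floor h3.le⟩, ha⟩
        exact_mod_cast (Finset.card_le_card hsub).trans Finset.card_image_le
      refine h3.trans (h1.trans ?_)
      calc ε₁ / 4 * ((⌊2 * L⌋₊ : ℕ) : ℝ) ≤ ε₁ / 4 * (2 * L) := by gcongr
        _ ≤ ε₁ * L := by nlinarith
    · intro n hn
      obtain ⟨h1, h2, t, ht, hbig⟩ := hS n hn
      exact ⟨h1, h2, t, ht, hbig.trans_le (le_abs_self _)⟩)
  exact ⟨N₁, fun N hN => hN₁ N hN ()⟩

open scoped Classical in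
/-- functions with a small mean have small sums along most trajectories -/
theorem small (κ ε : ℝ) (hκ : κ < 2 / Real.log (4 / 3)) (hε : 0 < ε) :
    ∃ δ : ℝ, 0 < δ ∧ ∀ w : ℕ → ℝ, (∀ n, 0 ≤ w n) → (∀ n, w n ≤ 2) →
      (∃ N₀ : ℕ, ∀ N ≥ N₀, ∑ n ∈ Icc 1 N, w n ≤ δ * N) → ∃ N₁ : ℕ, ∀ N ≥ N₁,
      (Set.ncard {n : ℕ | 1 ≤ n ∧ n ≤ N ∧ ∃ t : ℕ, (t : ℝ) ≤ κ * Real.log n ∧
        ε * Real.log n < ∑ k ∈ range t, w (T^[k] n)} : ℝ) ≤ ε * N := by
  obtain ⟨δ, hδ, h⟩ := rare κ (ε / 4) hκ (by positivity)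
  set a : ℝ := ε / (2 * max κ 1) with ha
  have hm : 0 < max κ 1 := lt_of_lt_of_le one_pos (le_max_right _ _)
  have ha0 : 0 < a := by positivity
  refine ⟨δ * a, by positivity, fun w hw0 hw2 ⟨N₀, hN₀⟩ => ?_⟩
  obtain ⟨N₁, hN₁⟩ := h {n | a < w n} ⟨N₀, fun N hN => by
    have h1 := hN₀ N hN
    have h2 : a * (((Icc 1 N).filter (· ∈ {n | a < w n})).card : ℝ) ≤ ∑ n ∈ Icc 1 N, w n := by
      calc a * (((Icc 1 N).filter (· ∈ {n | a < w n})).card : ℝ)
          = ∑ n ∈ (Icc 1 N).filter (· ∈ {n | a < w n}), a := by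
            rw [sum_const, nsmul_eq_mul, mul_comm]
        _ ≤ ∑ n ∈ (Icc 1 N).filter (· ∈ {n | a < w n}), w n := by
            apply sum_le_sum
            intro n hn
            exact ((mem_filter.1 hn).2 : a < w n).le
        _ ≤ ∑ n ∈ Icc 1 N, w n :=
            sum_le_sum_of_subset_of_nonneg (filter_subset _ _) fun n _ _ => hw0 n
    have h3 : a * (((Icc 1 N).filter (· ∈ {n | a < w n})).card : ℝ) ≤ a * (δ * N) := by
      refine h2.trans (h1.trans (le_of_eq (by ring)))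
    exact le_of_mul_le_mul_left h3 ha0⟩
  refine ⟨N₁, fun N hN => ?_⟩
  have h1 := hN₁ N hN
  have hfin : {n : ℕ | 1 ≤ n ∧ n ≤ N ∧ ∃ t : ℕ, (t : ℝ) ≤ κ * Real.log n ∧
        ε / 4 * Real.log n < visits {n | a < w n} n t}.Finite :=
    (Set.finite_Icc 1 N).subset fun _ hn => ⟨hn.1, hn.2.1⟩
  have h2 : Set.ncard {n : ℕ | 1 ≤ n ∧ n ≤ N ∧ ∃ t : ℕ, (t : ℝ) ≤ κ * Real.log n ∧
        ε * Real.log n < ∑ k ∈ range t, w (T^[k] n)} ≤
      Set.ncard {n : ℕ | 1 ≤ n ∧ n ≤ N ∧ ∃ t : ℕ, (t : ℝ) ≤ κ * Real.log n ∧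
        ε / 4 * Real.log n < visits {n | a < w n} n t} := by
    apply Set.ncard_le_ncard _ hfin
    rintro n ⟨g1, g2, t, ht, g3⟩
    refine ⟨g1, g2, t, ht, ?_⟩
    have hn1 : (1 : ℝ) ≤ n := by exact_mod_cast g1
    have hl : 0 ≤ Real.log n := Real.log_nonneg hn1
    rw [visits_eq]
    have h3 : ∑ k ∈ range t, w (T^[k] n) ≤
        a * t + 2 * ∑ k ∈ range t, (if T^[k] n ∈ {n | a < w n} then (1 : ℝ) else 0) := by
      rw [mul_sum]
      have e1 : a * (t : ℝ) = ∑ _k ∈ range t, a := by rw [sum_const, card_range, nsmul_eq_mul, mul_comm]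
      rw [e1, ← sum_add_distrib]
      apply sum_le_sum
      intro k _
      by_cases h4 : T^[k] n ∈ {n | a < w n}
      · rw [if_pos h4]
        have := hw2 (T^[k] n)
        linarith
      · rw [if_neg h4]
        have : w (T^[k] n) ≤ a := not_lt.1 h4
        linarith
    have h5 : a * (t : ℝ) ≤ ε / 2 * Real.log n := by
      calc a * (t : ℝ) ≤ a * (max κ 1 * Real.log n) := by
            apply mul_le_mul_of_nonneg_left _ ha0.le
            exact ht.trans (mul_le_mul_of_nonneg_right (le_max_left _ _) hl)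
        _ = ε / 2 * Real.log n := by rw [ha]; field_simp
    linarith
  have h6 : (Set.ncard {n : ℕ | 1 ≤ n ∧ n ≤ N ∧ ∃ t : ℕ, (t : ℝ) ≤ κ * Real.log n ∧
        ε * Real.log n < ∑ k ∈ range t, w (T^[k] n)} : ℝ) ≤ ε / 4 * N := le_trans (by exact_mod_cast h2) h1
  have : (0 : ℝ) ≤ N := Nat.cast_nonneg _
  nlinarith

/-- the mean of `u` along almost all trajectories is zero -/
def MT (u : ℕ → ℝ) : Prop := ∀ κ ε : ℝ, κ < 2 / Real.log (4 / 3) → 0 < ε →
  Dn (fun n => ∃ t : ℕ, (t : ℝ) ≤ κ * Real.log n ∧ ε * Real.log n < |∑ k ∈ range t, u (T^[k] n)|) 0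

/-- `p` is the stationary distribution modulo `M` -/
def Sta (M : ℕ) (p : ℕ → ℝ) : Prop := Pool.Agent.W38.BF.Stat M p ∧ ∀ r, 0 ≤ p r

theorem periodic {M : ℕ} (hM : 0 < M) {p : ℕ → ℝ} (hp : Sta M p) (v : ℕ → ℝ) :
    MT (fun n => v (n % M) - ∑ r ∈ range M, p r * v r) := by
  obtain ⟨p', hp', _, huniq, hcor⟩ := Pool.Agent.W38.BF.exists_stat_nat M hM
  have hpp : ∀ r < M, p r = p' r := huniq p hp.1
  have hNZ : NeZero M := ⟨hM.ne'⟩
  choose! g hg using fun r => fun hr : r < M => hcor hNZ r hr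
  set ρ : ℝ := ∑ r ∈ range M, p r * v r with hρ
  -- the Poisson equation for `v`
  have h1 : ∀ x : ZMod M, ((v x.val : ℝ) : ℂ) = (ρ : ℂ) +
      ((∑ r ∈ range M, (v r : ℂ) * g r x) -
        Pool.Agent.W38.BF.PP M (fun _ => 1) (fun x => ∑ r ∈ range M, (v r : ℂ) * g r x) x) := by
    intro x
    have h2 : ((v x.val : ℝ) : ℂ) = ∑ r ∈ range M, (v r : ℂ) *
        (if x = ((r : ℕ) : ZMod M) then (1 : ℂ) else 0) := by
      rw [sum_eq_single x.val]
      · rw [if_pos (by rw [ZMod.natCast_zmod_val]), mul_one]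
      · intro r hr hne
        rw [mem_range] at hr
        rw [if_neg, mul_zero]
        intro h
        apply hne
        rw [h, ZMod.val_natCast, Nat.mod_eq_of_lt hr]
      · intro h
        exfalso
        exact h (mem_range.2 (ZMod.val_lt x))
    rw [h2]
    have h3 : ∀ r ∈ range M, (v r : ℂ) * (if x = ((r : ℕ) : ZMod M) then (1 : ℂ) else 0) =
        (v r : ℂ) * (p' r : ℂ) + ((v r : ℂ) * g r x -
          (v r : ℂ) * Pool.Agent.W38.BF.PP M (fun _ => 1) (g r) x) := by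
      intro r hr
      rw [mem_range] at hr
      rw [hg r hr x]
      ring
    rw [sum_congr rfl h3, sum_add_distrib, sum_sub_distrib]
    congr 1
    · rw [hρ]
      push_cast
      apply sum_congr rfl
      intro r hr
      rw [mem_range] at hr
      rw [hpp r hr, mul_comm]
    · congr 1
      unfold Pool.Agent.W38.BF.PP
      simp only [one_mul]
      rw [← sum_add_distrib, sum_div]
      apply sum_congr rfl
      intro r _
      ring
  intro κ ε hκ hε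
  have h2 := (Pool.Agent.W38.BF.plain_ps (f := fun x : ZMod M => ((v x.val : ℝ) : ℂ)) h1 hε).dn
  refine zd_mono h2 ?_
  rintro n hn ⟨t, ht, hbig⟩ hall
  have hn1 : (1 : ℝ) ≤ n := by exact_mod_cast hn
  have hl : 0 ≤ Real.log n := Real.log_nonneg hn1
  have hmu := Pool.Agent.H499R2.ND.mu_pos'
  have hc : 2 / Real.log (4 / 3) = 1 / Pool.Agent.H319R2.Lln.mu := by
    unfold Pool.Agent.H319R2.Lln.mu; rw [one_div_div]
  have h3 : Pool.Agent.H319R2.Lln.mu * t ≤ Real.log n := by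
    have h4 : (t : ℝ) ≤ 1 / Pool.Agent.H319R2.Lln.mu * Real.log n := by
      rw [← hc]
      exact ht.trans (mul_le_mul_of_nonneg_right hκ.le hl)
    rw [one_div_mul_eq_div, le_div_iff₀ hmu, mul_comm] at h4
    exact h4
  have h4 := hall t h3
  have h5 : ‖∑ s ∈ range t, ((v (((Pool.Agent.Helper894.Collatz.T^[s] n : ℕ) : ZMod M)).val : ℝ) : ℂ) -
      (ρ : ℂ) * t‖ = |∑ k ∈ range t, (v (T^[k] n % M) - ρ)| := by
    have h6 : ∑ s ∈ range t, ((v (((Pool.Agent.Helper894.Collatz.T^[s] n : ℕ) : ZMod M)).val : ℝ) : ℂ) -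
      (ρ : ℂ) * t = ((∑ k ∈ range t, (v (T^[k] n % M) - ρ) : ℝ) : ℂ) := by
      push_cast
      rw [sum_sub_distrib, sum_const, card_range, nsmul_eq_mul, mul_comm (t : ℂ)]
      congr 1
      apply sum_congr rfl
      intro s _
      rw [ZMod.val_natCast]
      rfl
    rw [h6, Complex.norm_real, Real.norm_eq_abs]
  rw [h5] at h4
  linarith

/-- the functions approximated by periodic functions whose stationary mean tends to zero -/
def LP (u : ℕ → ℝ) : Prop := ∀ η : ℝ, 0 < η → ∃ (M : ℕ) (p v : ℕ → ℝ), 0 < M ∧ Sta M p ∧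
  (∀ n, |u n - v (n % M)| ≤ 2) ∧ |∑ r ∈ range M, p r * v r| ≤ η ∧
  ∃ N₀ : ℕ, ∀ N ≥ N₀, ∑ n ∈ Icc 1 N, |u n - v (n % M)| ≤ η * N

theorem mt_of_lp {u : ℕ → ℝ} (hu : LP u) : MT u := by
  intro κ ε hκ hε
  apply zd_of
  intro ε' hε'
  set e : ℝ := min ε ε' with he
  have he0 : 0 < e := lt_min hε hε'
  obtain ⟨δ, hδ, hsm⟩ := small κ (e / 4) hκ (by positivity)
  set η : ℝ := min δ (e / (4 * max κ 1)) with hη
  have hm : 0 < max κ 1 := lt_of_lt_of_le one_pos (le_max_right _ _)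
  have hη0 : 0 < η := by positivity
  obtain ⟨M, p, v, hM, hp, h2, hmean, N₀, hN₀⟩ := hu η hη0
  obtain ⟨N₁, hN₁⟩ := hsm (fun n => |u n - v (n % M)|) (fun _ => abs_nonneg _) h2
    ⟨N₀, fun N hN => (hN₀ N hN).trans (mul_le_mul_of_nonneg_right (min_le_left _ _) (Nat.cast_nonneg _))⟩
  have hper := periodic hM hp v κ (e / 4) hκ (by positivity)
  rw [Pool.Agent.H499R2.ND.zd_iff] at hper
  obtain ⟨N₂, hN₂⟩ := eventually_atTop.1 (hper (e / 4) (by positivity))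
  refine ⟨max N₁ N₂, fun N hN => ?_⟩
  have g1 := hN₁ N ((le_max_left _ _).trans hN)
  have g2 := hN₂ N ((le_max_right _ _).trans hN)
  unfold Pool.Agent.H499R2.ND.cnt at g2
  set A : Set ℕ := {n : ℕ | 1 ≤ n ∧ n ≤ N ∧ ∃ t : ℕ, (t : ℝ) ≤ κ * Real.log n ∧
        e / 4 * Real.log n < ∑ k ∈ range t, |u (T^[k] n) - v (T^[k] n % M)|} with hA
  set B : Set ℕ := {n : ℕ | 1 ≤ n ∧ n ≤ N ∧ ∃ t : ℕ, (t : ℝ) ≤ κ * Real.log n ∧
        e / 4 * Real.log n < |∑ k ∈ range t, (v (T^[k] n % M) - ∑ r ∈ range M, p r * v r)|} with hB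
  have hfin : (A ∪ B).Finite :=
    (Set.finite_Icc 1 N).subset fun _ hn => by
      rcases hn with hn | hn
      · exact ⟨hn.1, hn.2.1⟩
      · exact ⟨hn.1, hn.2.1⟩
  have h3 : {n : ℕ | 1 ≤ n ∧ n ≤ N ∧ ∃ t : ℕ, (t : ℝ) ≤ κ * Real.log n ∧
      ε * Real.log n < |∑ k ∈ range t, u (T^[k] n)|} ⊆ A ∪ B := by
    rintro n ⟨k1, k2, t, ht, k3⟩
    by_contra hcon
    rw [Set.mem_union, not_or] at hcon
    obtain ⟨c1, c2⟩ := hcon
    have c1' : ∑ k ∈ range t, |u (T^[k] n) - v (T^[k] n % M)| ≤ e / 4 * Real.log n := by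
      by_contra h
      exact c1 ⟨k1, k2, t, ht, not_le.1 h⟩
    have c2' : |∑ k ∈ range t, (v (T^[k] n % M) - ∑ r ∈ range M, p r * v r)| ≤ e / 4 * Real.log n := by
      by_contra h
      exact c2 ⟨k1, k2, t, ht, not_le.1 h⟩
    have hn1 : (1 : ℝ) ≤ n := by exact_mod_cast k1
    have hl : 0 ≤ Real.log n := Real.log_nonneg hn1
    set ρ : ℝ := ∑ r ∈ range M, p r * v r with hρ
    have c3 : |∑ k ∈ range t, u (T^[k] n)| ≤ ∑ k ∈ range t, |u (T^[k] n) - v (T^[k] n % M)| +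
        |∑ k ∈ range t, (v (T^[k] n % M) - ρ)| + t * |ρ| := by
      have e1 : ∑ k ∈ range t, u (T^[k] n) = ∑ k ∈ range t, (u (T^[k] n) - v (T^[k] n % M)) +
          ∑ k ∈ range t, (v (T^[k] n % M) - ρ) + t * ρ := by
        rw [← sum_add_distrib]
        have e2 : (t : ℝ) * ρ = ∑ _k ∈ range t, ρ := by rw [sum_const, card_range, nsmul_eq_mul]
        rw [e2, ← sum_add_distrib]
        apply sum_congr rfl
        intro k _
        ring
      rw [e1]
      refine (abs_add_le _ _).trans ?_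
      rw [abs_mul, abs_of_nonneg (Nat.cast_nonneg t : (0 : ℝ) ≤ t)]
      have := abs_add_le (∑ k ∈ range t, (u (T^[k] n) - v (T^[k] n % M)))
        (∑ k ∈ range t, (v (T^[k] n % M) - ρ))
      have := abs_sum_le_sum_abs (fun k => u (T^[k] n) - v (T^[k] n % M)) (range t)
      linarith
    have c4 : (t : ℝ) * |ρ| ≤ e / 4 * Real.log n := by
      calc (t : ℝ) * |ρ| ≤ (max κ 1 * Real.log n) * (e / (4 * max κ 1)) := by
            apply mul_le_mul
            · exact ht.trans (mul_le_mul_of_nonneg_right (le_max_left _ _) hl)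
            · exact hmean.trans (min_le_right _ _)
            · exact abs_nonneg _
            · positivity
        _ = e / 4 * Real.log n := by field_simp
    have c5 : e * Real.log n ≤ ε * Real.log n := mul_le_mul_of_nonneg_right (min_le_left _ _) hl
    have c6 : 0 ≤ e * Real.log n := mul_nonneg he0.le hl
    linarith
  have h4 := Set.ncard_le_ncard h3 hfin
  have h5 := Set.ncard_union_le A B
  have h6 : (({n : ℕ | 1 ≤ n ∧ n ≤ N ∧ ∃ t : ℕ, (t : ℝ) ≤ κ * Real.log n ∧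
      ε * Real.log n < |∑ k ∈ range t, u (T^[k] n)|}.ncard : ℕ) : ℝ) ≤ (A.ncard : ℝ) + (B.ncard : ℝ) := by
    exact_mod_cast h4.trans h5
  have h7 : e ≤ ε' := min_le_right _ _
  have h8 : (0 : ℝ) ≤ N := Nat.cast_nonneg _
  have h9 : e * N ≤ ε' * N := mul_le_mul_of_nonneg_right h7 h8
  have h10 : (B.ncard : ℝ) ≤ e / 4 * N := g2
  have h11 : (0 : ℝ) ≤ e * N := by positivity
  linarith

end Pool.Agent.W5h41.DL
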