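import Pool.Agent.W5h41.DL.A

set_option autoImplicit false

/-! # Complete trajectories; the trajectories of the Collatz map with the step `3 n + 1`.
(The proofs are those of `W5h47.LT.C` and `W5h47.LT.D`, for any function with mean zero along almost
all trajectories.) -/

namespace Pool.Agent.W5h41.DL

open Finset Filter Topology
open Pool.Agent.W5h47.BD (T log_le_time zd_union zd_small zd_of T_iter_pos)
open Pool.Agent.H499R2.ND (Dn zd_mono)

theorem sum_step {u : ℕ → ℝ} (hu : ∀ n, |u n| ≤ 1) {s' s : ℕ} (h : s' ≤ s) (n : ℕ) :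
    |∑ k ∈ range s, u (T^[k] n)| ≤ |∑ k ∈ range s', u (T^[k] n)| + ((s : ℝ) - s') := by
  rw [← sum_range_add_sum_Ico _ h]
  refine (abs_add_le _ _).trans ?_
  have h1 : |∑ k ∈ Ico s' s, u (T^[k] n)| ≤ (s : ℝ) - s' := by
    refine (abs_sum_le_sum_abs _ _).trans ?_
    calc ∑ k ∈ Ico s' s, |u (T^[k] n)| ≤ ∑ _k ∈ Ico s' s, (1 : ℝ) := sum_le_sum fun _ _ => hu _
      _ = ((s - s' : ℕ) : ℝ) := by simp
      _ = (s : ℝ) - s' := Nat.cast_sub h
  linarith

/-- complete trajectories of `T` -/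
theorem complete {u : ℕ → ℝ} (hz : MT u) (hu : ∀ n, |u n| ≤ 1) (ε : ℝ) (hε : 0 < ε) :
    Dn (fun n => ∃ t : ℕ, (T^[t] n = 1 ∧ ∀ j < t, T^[j] n ≠ 1) ∧ ∃ s ≤ t,
      ε * t < |∑ k ∈ range s, u (T^[k] n)|) 0 := by
  obtain ⟨δ, _, _, _, hδ⟩ := Pool.Agent.H499R2.ND.Bas_density
  set v : ℝ := 2 / Real.log (4 / 3) with hv
  have hv1 : 1 < v := Pool.Agent.W5h47.BD.log43_lt
  set η : ℝ := min (ε / 16) 1 with hη
  have hη0 : 0 < η := by positivity
  have hη1 : η ≤ 1 := min_le_right _ _
  have hη2 : η ≤ ε / 16 := min_le_left _ _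
  have h1 := hz (v - η) (ε / 4) (by linarith) (by positivity)
  have h2 := Pool.Agent.H499R2.ND.bas_zd hδ (fun n _ ⟨t, ht, _⟩ => ⟨t, ht⟩)
    (Pool.Agent.H499R2.ND.bas_profile hδ (ε := η) hη0)
  have h3 := zd_small (max 1 (16 / ε))
  refine zd_mono (zd_union (zd_union h1 h2) h3) ?_
  rintro n hn ⟨t, ⟨ht, htm⟩, s, hst, g6⟩
  by_contra hcon
  rw [not_or, not_or] at hcon
  obtain ⟨⟨hc1, hc2⟩, hc3⟩ := hcon
  push Not at hc3
  have hl1 : 1 < Real.log n := (le_max_left _ _).trans_lt hc3
  have hl2 : 16 / ε < Real.log n := (le_max_right _ _).trans_lt hc3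
  have hl3 : 16 < ε * Real.log n := by
    rw [div_lt_iff₀ hε] at hl2
    linarith
  have htl := log_le_time hn ht
  -- the stopping time
  have htime : (t : ℝ) ≤ (v + η) * Real.log n := by
    have hB : Pool.Agent.H499R2.ND.Bas n := ⟨t, ht⟩
    have h4 : ∃ t : ℕ, Pool.Agent.H499R2.ND.Tn^[t] n = 1 ∧
        (∀ j < t, Pool.Agent.H499R2.ND.Tn^[j] n ≠ 1) ∧
        |(t : ℝ) - 2 / Real.log (4 / 3) * Real.log n| ≤ η * Real.log n ∧
        ∀ j ≤ t, |Real.log ((Pool.Agent.H499R2.ND.Tn^[j] n : ℕ) : ℝ) -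
          (Real.log n - j / 2 * Real.log (4 / 3))| ≤ η * Real.log n := by
      by_contra h5
      exact hc2 ⟨hB, h5⟩
    obtain ⟨t', ht', htm', h5, _⟩ := h4
    have e1 : t' = t := by
      rcases lt_trichotomy t' t with h6 | h6 | h6
      · exact absurd ht' (htm t' h6)
      · exact h6
      · exact absurd ht (htm' t h6)
    subst e1
    have := (abs_le.1 h5).2
    linarith
  have key : ∀ s' : ℕ, (s' : ℝ) ≤ (v - η) * Real.log n →
      |∑ k ∈ range s', u (T^[k] n)| ≤ ε / 4 * Real.log n := by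
    intro s' hs'
    by_contra h4
    push Not at h4
    exact hc1 ⟨s', hs', h4⟩
  set s' : ℕ := min s ⌊(v - η) * Real.log n⌋₊ with hs'
  have hsr : (s : ℝ) ≤ t := by exact_mod_cast hst
  have hnn : 0 ≤ (v - η) * Real.log n := mul_nonneg (by linarith) (by linarith)
  have k1 : (s' : ℝ) ≤ (v - η) * Real.log n := by
    have : (s' : ℝ) ≤ (⌊(v - η) * Real.log n⌋₊ : ℝ) := by exact_mod_cast min_le_right _ _
    exact this.trans (Nat.floor_le hnn)
  have k2 : s' ≤ s := min_le_left _ _
  have k3 : (s : ℝ) - s' ≤ 2 * η * Real.log n + 1 := by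
    rcases le_total s ⌊(v - η) * Real.log n⌋₊ with h5 | h5
    · have e1 : s' = s := min_eq_left h5
      rw [e1]
      have : 0 ≤ 2 * η * Real.log n := by positivity
      linarith
    · have e1 : s' = ⌊(v - η) * Real.log n⌋₊ := min_eq_right h5
      rw [e1]
      have := Nat.lt_floor_add_one ((v - η) * Real.log n)
      linarith
  have k4 := key s' k1
  have k5 := sum_step hu k2 n
  have k6 : 2 * η * Real.log n ≤ ε / 8 * Real.log n := by
    have : 0 ≤ Real.log n := by linarith
    nlinarith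
  have k9 : ε * Real.log n ≤ ε * t := by gcongr
  linarith

/-- the terms of size at least `n ^ c` -/
theorem partial_zd {u : ℕ → ℝ} (hz : MT u) (c ε : ℝ) (hc : 0 < c) (hε : 0 < ε) :
    Dn (fun n : ℕ => ∃ t : ℕ, (∀ k < t, (n : ℝ) ^ c ≤ ((T^[k] n : ℕ) : ℝ)) ∧
      ε * Real.log n < |∑ k ∈ range t, u (T^[k] n)|) 0 := by
  set v : ℝ := 2 / Real.log (4 / 3) with hv
  have hv1 : 1 < v := Pool.Agent.W5h47.BD.log43_lt
  have hmu := Pool.Agent.H499R2.ND.mu_pos'
  have hvmu : v * Pool.Agent.H319R2.Lln.mu = 1 := by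
    rw [hv]
    unfold Pool.Agent.H319R2.Lln.mu
    have : 0 < Real.log (4 / 3) := Real.log_pos (by norm_num)
    field_simp
  set η : ℝ := c / 2 with hη
  have hη0 : 0 < η := by positivity
  have h1 := hz (v * (1 - c / 4)) ε (by
    have : 0 < v * (c / 4) := by positivity
    linarith) hε
  have h2 := Pool.Agent.H499R2.ND.prof_zd hη0
  have h3 := zd_small (max 1 (4 / (c * v)))
  refine zd_mono (zd_union (zd_union h1 h2) h3) ?_
  rintro n hn ⟨t, ht, g6⟩
  by_contra hcon
  rw [not_or, not_or] at hcon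
  obtain ⟨⟨hc1, hc2⟩, hc3⟩ := hcon
  push Not at hc3
  have hl1 : 1 < Real.log n := (le_max_left _ _).trans_lt hc3
  have hl2 : 4 / (c * v) < Real.log n := (le_max_right _ _).trans_lt hc3
  have hl3 : 4 < c * v * Real.log n := by
    rw [div_lt_iff₀ (by positivity)] at hl2
    linarith
  rw [not_not] at hc2
  obtain ⟨m₀, hm₀, hprof⟩ := hc2
  have hn0 : (0 : ℝ) < n := by exact_mod_cast hn
  have hlow : ∀ k < t, c * Real.log n ≤ Real.log ((T^[k] n : ℕ) : ℝ) := by
    intro k hk
    rw [← Real.log_rpow hn0]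
    exact Real.log_le_log (by positivity) (ht k hk)
  have htm : t ≤ m₀ := by
    by_contra h4
    push Not at h4
    have h5 := hlow m₀ h4
    have h6 : Real.log ((T^[m₀] n : ℕ) : ℝ) ≤ η * Real.log n := hm₀
    have : η * Real.log n < c * Real.log n := by
      apply mul_lt_mul_of_pos_right _ (by linarith)
      rw [hη]; linarith
    linarith
  apply hc1
  refine ⟨t, ?_, g6⟩
  rcases Nat.eq_zero_or_pos t with h4 | h4
  · rw [h4, Nat.cast_zero]
    have hc1' : c ≤ 1 ∨ 1 < c := le_or_gt c 1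
    rcases hc1' with h5 | h5
    · have : 0 ≤ v * (1 - c / 4) := mul_nonneg (by linarith) (by linarith)
      exact mul_nonneg this (by linarith)
    · -- the empty sum
      exfalso
      rw [h4] at g6
      simp only [range_zero, sum_empty, abs_zero] at g6
      have : 0 < ε * Real.log n := mul_pos hε (by linarith)
      linarith
  · have h5 := hlow (t - 1) (by omega)
    have h7 := (abs_le.1 (hprof (t - 1) (by omega))).2
    have h7' : Real.log ((T^[t - 1] n : ℕ) : ℝ) - Real.log n +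
        Pool.Agent.H319R2.Lln.mu * ((t - 1 : ℕ) : ℝ) ≤ η * Real.log n := h7
    have h8 : ((t - 1 : ℕ) : ℝ) = t - 1 := by
      rw [Nat.cast_sub h4, Nat.cast_one]
    rw [h8] at h7'
    have h9 : Pool.Agent.H319R2.Lln.mu * ((t : ℝ) - 1) ≤ (1 - c / 2) * Real.log n := by
      rw [hη] at h7'
      linarith
    have h10 : (t : ℝ) - 1 ≤ v * ((1 - c / 2) * Real.log n) := by
      calc (t : ℝ) - 1 = v * Pool.Agent.H319R2.Lln.mu * ((t : ℝ) - 1) := by rw [hvmu, one_mul]
        _ = v * (Pool.Agent.H319R2.Lln.mu * ((t : ℝ) - 1)) := by ring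
        _ ≤ _ := mul_le_mul_of_nonneg_left h9 (by linarith)
    have h11 : v * (1 - c / 4) * Real.log n = v * ((1 - c / 2) * Real.log n) +
      c * v * Real.log n / 4 := by ring
    rw [h11]
    linarith

/-- the Collatz function -/
def Co (n : ℕ) : ℕ := if n % 2 = 0 then n / 2 else 3 * n + 1

theorem co_even {n : ℕ} (h : n % 2 = 0) : Co n = T n := by
  unfold Co T; rw [if_pos h, if_pos h]

theorem co_odd {n : ℕ} (h : ¬ n % 2 = 0) : Co (Co n) = T n := by
  unfold Co T
  rw [if_neg h, if_neg h, if_pos (by omega)]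

theorem co_T : ∀ l n : ℕ, Co^[l] n = 1 → ∃ t ≤ l, T^[t] n = 1 := by
  intro l
  induction l using Nat.strong_induction_on with
  | _ l ih =>
    intro n hn
    match l, ih, hn with
    | 0, _, hn => exact ⟨0, le_rfl, hn⟩
    | 1, _, hn =>
      by_cases h : n % 2 = 0
      · refine ⟨1, le_rfl, ?_⟩
        simp only [Function.iterate_one] at hn ⊢
        rw [← co_even h, hn]
      · exfalso
        simp only [Function.iterate_one] at hn
        unfold Co at hn
        rw [if_neg h] at hn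
        omega
    | l + 2, ih, hn =>
      by_cases h : n % 2 = 0
      · rw [Function.iterate_succ_apply, co_even h] at hn
        obtain ⟨t, ht, h1⟩ := ih (l + 1) (by omega) _ hn
        exact ⟨t + 1, by omega, by rw [Function.iterate_succ_apply, h1]⟩
      · rw [Function.iterate_succ_apply, Function.iterate_succ_apply, co_odd h] at hn
        obtain ⟨t, ht, h1⟩ := ih l (by omega) _ hn
        exact ⟨t + 1, by omega, by rw [Function.iterate_succ_apply, h1]⟩

/-- the value at `3 x + 1` for odd `x` -/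
noncomputable def ev (g : ℕ → ℝ) (x : ℕ) : ℝ := if x % 2 = 0 then 0 else g (3 * x + 1)

theorem co_sum {g : ℕ → ℝ} (hg : ∀ n, |g n| ≤ 1) : ∀ s n : ℕ, ∃ s' ≤ s,
    |∑ k ∈ range s, g (Co^[k] n) - ∑ j ∈ range s', (g (T^[j] n) + ev g (T^[j] n))| ≤ 1 ∧
    ∀ j < s', ∃ k < s, T^[j] n = Co^[k] n := by
  intro s
  induction s using Nat.strong_induction_on with
  | _ s ih =>
    intro n
    match s, ih with
    | 0, _ => exact ⟨0, le_rfl, by simp, by simp⟩
    | 1, _ => exact ⟨0, by omega, by simpa using hg n, by simp⟩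
    | s + 2, ih =>
      by_cases h : n % 2 = 0
      · obtain ⟨s', h1, h2, h3⟩ := ih (s + 1) (by omega) (T n)
        refine ⟨s' + 1, by omega, ?_, ?_⟩
        · rw [sum_range_succ', sum_range_succ' _ s']
          have e0 : ev g n = 0 := by unfold ev; rw [if_pos h]
          simp only [Function.iterate_succ_apply, Function.iterate_zero, id, co_even h, e0, add_zero]
          rw [add_sub_add_right_eq_sub]
          exact h2
        · intro j hj
          rcases Nat.eq_zero_or_pos j with h4 | h4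
          · exact ⟨0, by omega, by rw [h4]; rfl⟩
          · obtain ⟨k, hk, h5⟩ := h3 (j - 1) (by omega)
            refine ⟨k + 1, by omega, ?_⟩
            rw [Function.iterate_succ_apply, co_even h, ← h5, ← Function.iterate_succ_apply]
            congr 1
            omega
      · obtain ⟨s', h1, h2, h3⟩ := ih s (by omega) (T n)
        refine ⟨s' + 1, by omega, ?_, ?_⟩
        · rw [sum_range_succ', sum_range_succ', sum_range_succ' _ s']
          have e1 : Co n = 3 * n + 1 := by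
            unfold Co
            rw [if_neg h]
          have e0 : ev g n = g (3 * n + 1) := by unfold ev; rw [if_neg h]
          simp only [Function.iterate_succ_apply, Function.iterate_zero, id, co_odd h, e0]
          rw [e1]
          have e2 : ∀ A B x y : ℝ, A + x + y - (B + (y + x)) = A - B := fun A B x y => by ring
          rw [e2]
          exact h2
        · intro j hj
          rcases Nat.eq_zero_or_pos j with h4 | h4
          · exact ⟨0, by omega, by rw [h4]; rfl⟩
          · obtain ⟨k, hk, h5⟩ := h3 (j - 1) (by omega)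
            refine ⟨k + 2, by omega, ?_⟩
            rw [Function.iterate_succ_apply, Function.iterate_succ_apply, co_odd h, ← h5,
              ← Function.iterate_succ_apply]
            congr 1
            omega

theorem T_pos {n : ℕ} (hn : 1 ≤ n) : 1 ≤ T n := by
  unfold T; split_ifs <;> omega

/-- complete trajectories of the Collatz function -/
theorem co_complete {g : ℕ → ℝ} (hg : ∀ n, |g n| ≤ 1) (hz : MT (fun n => g n + ev g n))
    (ε : ℝ) (hε : 0 < ε) : Dn (fun n => ∃ l : ℕ, (Co^[l] n = 1 ∧ ∀ j < l, Co^[j] n ≠ 1) ∧ ∃ s ≤ l,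
      ε * l < |∑ k ∈ range s, g (Co^[k] n)|) 0 := by
  have hev : ∀ n, |ev g n| ≤ 1 := by
    intro n
    unfold ev
    split_ifs
    · simp
    · exact hg _
  have hz2 : MT (fun n => (g n + ev g n) / 2) := by
    intro κ ε hκ hε
    refine zd_mono (hz κ ε hκ hε) ?_
    rintro n hn ⟨t, ht, h⟩
    refine ⟨t, ht, ?_⟩
    rw [← sum_div, abs_div, abs_two] at h
    have : 0 ≤ |∑ k ∈ range t, (g (T^[k] n) + ev g (T^[k] n))| := abs_nonneg _
    linarith
  have h1 := complete hz2 (by
    intro n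
    rw [abs_div, abs_two]
    have := abs_add_le (g n) (ev g n)
    have := hg n
    have := hev n
    linarith) (ε / 4) (by positivity)
  have h3 := zd_small (3 / ε)
  refine zd_mono (zd_union h1 h3) ?_
  rintro n hn ⟨l, ⟨hl, hlm⟩, s, hs, g6⟩
  by_contra hcon
  rw [not_or] at hcon
  obtain ⟨hc1, hc3⟩ := hcon
  push Not at hc3
  have hl3 : 3 < ε * Real.log n := by
    rw [div_lt_iff₀ hε] at hc3
    linarith
  obtain ⟨t₀, ht₀, ht₀'⟩ := co_T l n hl
  classical
  have hex : ∃ t, T^[t] n = 1 := ⟨t₀, ht₀'⟩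
  set t := Nat.find hex with ht
  have ht1 : T^[t] n = 1 := Nat.find_spec hex
  have htm : ∀ j < t, T^[j] n ≠ 1 := fun j hj => Nat.find_min hex hj
  have htl : t ≤ l := (Nat.find_min' hex ht₀').trans ht₀
  obtain ⟨s', hs', h4, h5⟩ := co_sum hg s n
  have hs't : s' ≤ t := by
    by_contra h6
    push Not at h6
    obtain ⟨k, hk, h7⟩ := h5 t h6
    rw [ht1] at h7
    exact hlm k (by omega) h7.symm
  have k1 : |∑ k ∈ range s', (g (T^[k] n) + ev g (T^[k] n)) / 2| ≤ ε / 4 * t := by
    by_contra h6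
    push Not at h6
    exact hc1 ⟨t, ⟨ht1, htm⟩, s', hs't, h6⟩
  rw [← sum_div, abs_div, abs_two] at k1
  have k3 := log_le_time hn ht1
  have k4 : (t : ℝ) ≤ l := by exact_mod_cast htl
  have k5 : ε * Real.log n ≤ ε * l := by
    apply mul_le_mul_of_nonneg_left _ hε.le
    linarith
  have k6 : ε / 4 * (t : ℝ) ≤ ε / 4 * l := by gcongr
  have k7 : |∑ k ∈ range s, g (Co^[k] n)| ≤ |∑ k ∈ range s', (g (T^[k] n) + ev g (T^[k] n))| + 1 := by
    have := abs_add_le (∑ k ∈ range s, g (Co^[k] n) - ∑ k ∈ range s', (g (T^[k] n) + ev g (T^[k] n)))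
      (∑ k ∈ range s', (g (T^[k] n) + ev g (T^[k] n)))
    rw [sub_add_cancel] at this
    linarith
  linarith

theorem co_partial {g : ℕ → ℝ} (hg : ∀ n, |g n| ≤ 1) (hz : MT (fun n => g n + ev g n))
    (c ε : ℝ) (hc : 0 < c) (hε : 0 < ε) : Dn (fun n : ℕ => ∃ s : ℕ,
      (∀ k < s, (n : ℝ) ^ c ≤ ((Co^[k] n : ℕ) : ℝ)) ∧
      ε * Real.log n < |∑ k ∈ range s, g (Co^[k] n)|) 0 := by
  have h1 := partial_zd hz c (ε / 3) hc (by positivity)
  have h3 := zd_small (3 / ε)
  refine zd_mono (zd_union h1 h3) ?_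
  rintro n hn ⟨s, hs, g6⟩
  by_contra hcon
  rw [not_or] at hcon
  obtain ⟨hc1, hc3⟩ := hcon
  push Not at hc3
  have hl3 : 3 < ε * Real.log n := by
    rw [div_lt_iff₀ hε] at hc3
    linarith
  obtain ⟨s', hs', h4, h5⟩ := co_sum hg s n
  have hlow : ∀ k < s', (n : ℝ) ^ c ≤ ((T^[k] n : ℕ) : ℝ) := by
    intro j hj
    obtain ⟨k, hk, h7⟩ := h5 j hj
    rw [h7]
    exact hs k hk
  have k1 : |∑ k ∈ range s', (g (T^[k] n) + ev g (T^[k] n))| ≤ ε / 3 * Real.log n := by
    by_contra h6
    push Not at h6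
    exact hc1 ⟨s', hlow, h6⟩
  have k7 : |∑ k ∈ range s, g (Co^[k] n)| ≤ |∑ k ∈ range s', (g (T^[k] n) + ev g (T^[k] n))| + 1 := by
    have := abs_add_le (∑ k ∈ range s, g (Co^[k] n) - ∑ k ∈ range s', (g (T^[k] n) + ev g (T^[k] n)))
      (∑ k ∈ range s', (g (T^[k] n) + ev g (T^[k] n)))
    rw [sub_add_cancel] at this
    linarith
  linarith

end Pool.Agent.W5h41.DL
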