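import Pool.Agent.W5h41.DL.B

set_option autoImplicit false

/-! # Limit periodic functions have a mean value along almost all trajectories -/

namespace Pool.Agent.W5h41.DL

open Finset Filter Topology
open Pool.Agent.W5h47.BD (T log_le_time zd_union zd_small zd_of T_iter_pos)
open Pool.Agent.H499R2.ND (Dn zd_mono)

theorem mt_add {u v : ℕ → ℝ} (hu : MT u) (hv : MT v) : MT (fun n => u n + v n) := by
  intro κ ε hκ hε
  refine zd_mono (zd_union (hu κ (ε / 2) hκ (by positivity)) (hv κ (ε / 2) hκ (by positivity))) ?_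
  rintro n hn ⟨t, ht, h⟩
  by_contra hcon
  rw [not_or] at hcon
  obtain ⟨c1, c2⟩ := hcon
  have c1' : |∑ k ∈ range t, u (T^[k] n)| ≤ ε / 2 * Real.log n := by
    by_contra h1
    exact c1 ⟨t, ht, not_le.1 h1⟩
  have c2' : |∑ k ∈ range t, v (T^[k] n)| ≤ ε / 2 * Real.log n := by
    by_contra h1
    exact c2 ⟨t, ht, not_le.1 h1⟩
  rw [sum_add_distrib] at h
  have := abs_add_le (∑ k ∈ range t, u (T^[k] n)) (∑ k ∈ range t, v (T^[k] n))
  linarith

theorem mt_smul {u : ℕ → ℝ} (hu : MT u) (c : ℝ) : MT (fun n => c * u n) := by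
  intro κ ε hκ hε
  have hc : 0 < |c| + 1 := by positivity
  refine zd_mono (hu κ (ε / (|c| + 1)) hκ (by positivity)) ?_
  rintro n hn ⟨t, ht, h⟩
  refine ⟨t, ht, ?_⟩
  rw [← mul_sum, abs_mul] at h
  rw [div_mul_eq_mul_div, div_lt_iff₀ hc]
  have : 0 ≤ |∑ k ∈ range t, u (T^[k] n)| := abs_nonneg _
  nlinarith

theorem mt_congr {u v : ℕ → ℝ} (hu : MT u) (h : ∀ n, 1 ≤ n → v n = u n) : MT v := by
  intro κ ε hκ hε
  refine zd_mono (hu κ ε hκ hε) ?_
  rintro n hn ⟨t, ht, hb⟩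
  refine ⟨t, ht, ?_⟩
  rwa [sum_congr rfl fun k _ => h _ (T_iter_pos hn k)] at hb

/-- functions dominated by a nonnegative function with mean zero -/
theorem mt_dom {u w : ℕ → ℝ} (hw : MT w) (h : ∀ n, 1 ≤ n → |u n| ≤ w n) : MT u := by
  intro κ ε hκ hε
  refine zd_mono (hw κ ε hκ hε) ?_
  rintro n hn ⟨t, ht, hb⟩
  refine ⟨t, ht, ?_⟩
  refine hb.trans_le ?_
  refine (abs_sum_le_sum_abs _ _).trans (le_trans ?_ (le_abs_self _))
  exact sum_le_sum fun k _ => h _ (T_iter_pos hn k)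

/-- a stationary distribution exists -/
theorem exists_sta (M : ℕ) (hM : 0 < M) : ∃ p, Sta M p := by
  obtain ⟨p, h1, h2, _⟩ := Pool.Agent.W38.BF.exists_stat_nat M hM
  exact ⟨p, h1, h2⟩

theorem sta_unif {M : ℕ} (hM : 0 < M) (h3 : ¬ 3 ∣ M) : Sta M (fun _ => 1 / M) :=
  ⟨Pool.Agent.W38.BF.unif_stat M hM h3, fun _ => by positivity⟩

/-- the multiples of three have frequency zero -/
theorem mt_three : MT (fun n => if n % 3 = 0 then (1 : ℝ) else 0) := by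
  obtain ⟨p, hp⟩ := exists_sta 3 (by norm_num)
  have h := periodic (by norm_num) hp (fun r => if r = 0 then (1 : ℝ) else 0)
  have h0 : p 0 = 0 := by
    have h1 := hp.1.2 0 (by norm_num)
    have h2 : (range (2 * 3)).filter (fun x => Pool.Agent.Helper894.Collatz.T x % 3 = 0) = {0} := by
      decide
    rw [h2, sum_singleton] at h1
    simp only [Nat.zero_mod] at h1
    linarith
  refine mt_congr h fun n _ => ?_
  rw [sum_range_succ, sum_range_succ, sum_range_one]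
  simp [h0]

/-- parity -/
theorem mt_par : MT (fun n => (if n % 2 = 0 then (1 : ℝ) else 2) - 3 / 2) := by
  have h := periodic (by norm_num) (sta_unif (M := 2) (by norm_num) (by norm_num))
    (fun r => if r = 0 then (1 : ℝ) else 2)
  refine mt_congr h fun n _ => ?_
  rw [sum_range_succ, sum_range_one]
  norm_num

/-- `v`, of period `M`, approximates `f` with the mean error `δ` -/
def Apx (f : ℕ → ℝ) (δ : ℝ) (M : ℕ) (p v : ℕ → ℝ) : Prop := 0 < M ∧ Sta M p ∧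
  (∀ n, |f n - v (n % M)| ≤ 2) ∧ ∃ N₀ : ℕ, ∀ N ≥ N₀, ∑ n ∈ Icc 1 N, |f n - v (n % M)| ≤ δ * N

/-- the mean of `v` -/
noncomputable def mn (M : ℕ) (p v : ℕ → ℝ) : ℝ := ∑ r ∈ range M, p r * v r

theorem close (f : ℕ → ℝ) {ε : ℝ} (hε : 0 < ε) : ∃ δ : ℝ, 0 < δ ∧ ∀ (M : ℕ) (p v : ℕ → ℝ)
    (M' : ℕ) (p' v' : ℕ → ℝ), Apx f δ M p v → Apx f δ M' p' v' → |mn M p v - mn M' p' v'| ≤ ε := by
  set e : ℝ := min (ε / 8) (1 / 8) with he
  have he0 : 0 < e := by positivity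
  have he1 : e ≤ ε / 8 := min_le_left _ _
  have he2 : e ≤ 1 / 8 := min_le_right _ _
  have hκ : (1 : ℝ) < 2 / Real.log (4 / 3) := Pool.Agent.W5h47.BD.log43_lt
  obtain ⟨δ, hδ, hsm⟩ := small 1 e hκ he0
  refine ⟨δ, hδ, fun M p v M' p' v' hv hv' => ?_⟩
  obtain ⟨hM, hp, h2, hN⟩ := hv
  obtain ⟨hM', hp', h2', hN'⟩ := hv'
  obtain ⟨N₁, hN₁⟩ := hsm (fun n => |f n - v (n % M)|) (fun _ => abs_nonneg _) h2 hN
  obtain ⟨N₂, hN₂⟩ := hsm (fun n => |f n - v' (n % M')|) (fun _ => abs_nonneg _) h2' hN'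
  have hper := zd_union (zd_union (periodic hM hp v 1 e hκ he0) (periodic hM' hp' v' 1 e hκ he0)) (zd_small 2)
  rw [Pool.Agent.H499R2.ND.zd_iff] at hper
  obtain ⟨N₃, hN₃⟩ := eventually_atTop.1 (hper (1 / 8) (by positivity))
  set N : ℕ := max (max N₁ N₂) (max N₃ 1) with hNd
  have g1 := hN₁ N ((le_max_left _ _).trans (le_max_left _ _))
  have g2 := hN₂ N ((le_max_right _ _).trans (le_max_left _ _))
  have g3 := hN₃ N ((le_max_left _ _).trans (le_max_right _ _))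
  have hN1 : 1 ≤ N := (le_max_right _ _).trans (le_max_right _ _)
  unfold Pool.Agent.H499R2.ND.cnt at g3
  set A : Set ℕ := {n : ℕ | 1 ≤ n ∧ n ≤ N ∧ ∃ t : ℕ, (t : ℝ) ≤ 1 * Real.log n ∧
        e * Real.log n < ∑ k ∈ range t, |f (T^[k] n) - v (T^[k] n % M)|} with hA
  set A' : Set ℕ := {n : ℕ | 1 ≤ n ∧ n ≤ N ∧ ∃ t : ℕ, (t : ℝ) ≤ 1 * Real.log n ∧
        e * Real.log n < ∑ k ∈ range t, |f (T^[k] n) - v' (T^[k] n % M')|} with hA'
  -- a good `n`
  have hex : ∃ n : ℕ, 1 ≤ n ∧ n ≤ N ∧ n ∉ A ∧ n ∉ A' ∧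
      ¬ (((∃ t : ℕ, (t : ℝ) ≤ 1 * Real.log n ∧ e * Real.log n < |∑ k ∈ range t,
        (v (T^[k] n % M) - ∑ r ∈ range M, p r * v r)|) ∨
        (∃ t : ℕ, (t : ℝ) ≤ 1 * Real.log n ∧ e * Real.log n < |∑ k ∈ range t,
        (v' (T^[k] n % M') - ∑ r ∈ range M', p' r * v' r)|)) ∨ Real.log n ≤ 2) := by
    by_contra hcon
    push Not at hcon
    set B : Set ℕ := {n : ℕ | 1 ≤ n ∧ n ≤ N ∧ (((∃ t : ℕ, (t : ℝ) ≤ 1 * Real.log n ∧ e * Real.log n <
        |∑ k ∈ range t, (v (T^[k] n % M) - ∑ r ∈ range M, p r * v r)|) ∨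
        (∃ t : ℕ, (t : ℝ) ≤ 1 * Real.log n ∧ e * Real.log n < |∑ k ∈ range t,
        (v' (T^[k] n % M') - ∑ r ∈ range M', p' r * v' r)|)) ∨ Real.log n ≤ 2)} with hB
    have h3 : Set.Icc 1 N ⊆ (A ∪ A') ∪ B := by
      rintro n ⟨k1, k2⟩
      by_contra hc
      rw [Set.mem_union, Set.mem_union, not_or, not_or] at hc
      obtain ⟨⟨c1, c2⟩, c3⟩ := hc
      apply c3
      refine ⟨k1, k2, ?_⟩
      have := hcon n k1 k2 c1 c2
      tauto
    have hfin : ((A ∪ A') ∪ B).Finite :=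
      (Set.finite_Icc 1 N).subset fun _ hn => by
        rcases hn with (hn | hn) | hn
        · exact ⟨hn.1, hn.2.1⟩
        · exact ⟨hn.1, hn.2.1⟩
        · exact ⟨hn.1, hn.2.1⟩
    have h4 := Set.ncard_le_ncard h3 hfin
    have h5 := Set.ncard_union_le (A ∪ A') B
    have h6 := Set.ncard_union_le A A'
    have h7 : (Set.Icc 1 N).ncard = N := by
      rw [Set.ncard_eq_toFinset_card' (Set.Icc 1 N), Set.toFinset_Icc, Nat.card_Icc, Nat.add_sub_cancel]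
    rw [h7] at h4
    have h8 : (N : ℝ) ≤ (A.ncard : ℝ) + (A'.ncard : ℝ) + (B.ncard : ℝ) := by
      have : N ≤ A.ncard + A'.ncard + B.ncard := by omega
      exact_mod_cast this
    have h9 : (B.ncard : ℝ) ≤ 1 / 8 * N := g3
    have h10 : (1 : ℝ) ≤ N := by exact_mod_cast hN1
    nlinarith
  obtain ⟨n, k1, k2, k3, k4, k5⟩ := hex
  rw [not_or, not_or] at k5
  obtain ⟨⟨k5, k6⟩, k7⟩ := k5
  push Not at k7
  set t : ℕ := ⌊Real.log n⌋₊ with ht
  have hl0 : 0 ≤ Real.log n := by linarith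
  have ht1 : (t : ℝ) ≤ 1 * Real.log n := by rw [one_mul]; exact Nat.floor_le hl0
  have ht2 : Real.log n < t + 1 := Nat.lt_floor_add_one _
  have c1 : ∑ k ∈ range t, |f (T^[k] n) - v (T^[k] n % M)| ≤ e * Real.log n := by
    by_contra h
    exact k3 ⟨k1, k2, t, ht1, not_le.1 h⟩
  have c2 : ∑ k ∈ range t, |f (T^[k] n) - v' (T^[k] n % M')| ≤ e * Real.log n := by
    by_contra h
    exact k4 ⟨k1, k2, t, ht1, not_le.1 h⟩
  have c3 : |∑ k ∈ range t, (v (T^[k] n % M) - mn M p v)| ≤ e * Real.log n := by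
    by_contra h
    exact k5 ⟨t, ht1, not_le.1 h⟩
  have c4 : |∑ k ∈ range t, (v' (T^[k] n % M') - mn M' p' v')| ≤ e * Real.log n := by
    by_contra h
    exact k6 ⟨t, ht1, not_le.1 h⟩
  have c5 : (t : ℝ) * |mn M p v - mn M' p' v'| ≤ 4 * (e * Real.log n) := by
    have e1 : (t : ℝ) * (mn M p v - mn M' p' v') =
        -(∑ k ∈ range t, (v (T^[k] n % M) - mn M p v)) +
        (∑ k ∈ range t, (v' (T^[k] n % M') - mn M' p' v')) +
        (-(∑ k ∈ range t, (f (T^[k] n) - v (T^[k] n % M))) +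
        ∑ k ∈ range t, (f (T^[k] n) - v' (T^[k] n % M'))) := by
      simp only [sum_sub_distrib, sum_const, card_range, nsmul_eq_mul]
      ring
    rw [← abs_of_nonneg (Nat.cast_nonneg t : (0 : ℝ) ≤ t), ← abs_mul, e1]
    refine (abs_add_le _ _).trans ?_
    have a1 := abs_add_le (-(∑ k ∈ range t, (v (T^[k] n % M) - mn M p v)))
      (∑ k ∈ range t, (v' (T^[k] n % M') - mn M' p' v'))
    have a2 := abs_add_le (-(∑ k ∈ range t, (f (T^[k] n) - v (T^[k] n % M))))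
      (∑ k ∈ range t, (f (T^[k] n) - v' (T^[k] n % M')))
    have a3 := abs_sum_le_sum_abs (fun k => f (T^[k] n) - v (T^[k] n % M)) (range t)
    have a4 := abs_sum_le_sum_abs (fun k => f (T^[k] n) - v' (T^[k] n % M')) (range t)
    rw [abs_neg] at a1 a2
    linarith
  have c6 : Real.log n ≤ 2 * t := by linarith
  have ht0 : (0 : ℝ) < t := by linarith
  have c7 : (t : ℝ) * |mn M p v - mn M' p' v'| ≤ t * ε := by
    refine c5.trans ?_
    have : e * Real.log n ≤ ε / 8 * (2 * t) := mul_le_mul he1 c6 hl0 (by positivity)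
    linarith
  exact le_of_mul_le_mul_left c7 ht0

/-- approximable by periodic functions -/
def LimPer (f : ℕ → ℝ) : Prop := ∀ η : ℝ, 0 < η → ∃ M : ℕ, 0 < M ∧ ∃ v : ℕ → ℝ,
  ∃ N₀ : ℕ, ∀ N ≥ N₀, ∑ n ∈ Icc 1 N, |f n - v (n % M)| ≤ η * N

theorem limper_apx {f : ℕ → ℝ} (hf : ∀ n, |f n| ≤ 1) (h : LimPer f) {δ : ℝ} (hδ : 0 < δ) :
    ∃ (M : ℕ) (p v : ℕ → ℝ), Apx f δ M p v := by
  obtain ⟨M, hM, v, N₀, hN₀⟩ := h δ hδ
  obtain ⟨p, hp⟩ := exists_sta M hM
  have key : ∀ x y : ℝ, |x| ≤ 1 → |x - max (-1) (min y 1)| ≤ |x - y| ∧ |x - max (-1) (min y 1)| ≤ 2 := by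
    intro x y hx
    obtain ⟨h1, h2⟩ := abs_le.1 hx
    have h3 : -1 ≤ max (-1) (min y 1) := le_max_left _ _
    have h4 : max (-1) (min y 1) ≤ 1 := max_le (by norm_num) (min_le_right _ _)
    refine ⟨?_, by rw [abs_le]; constructor <;> linarith⟩
    rcases le_total y (-1) with h5 | h5
    · have e : max (-1) (min y 1) = -1 := by
        rw [min_eq_left (by linarith), max_eq_left h5]
      rw [e, abs_of_nonneg (by linarith), abs_of_nonneg (by linarith)]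
      linarith
    · rcases le_total y 1 with h6 | h6
      · have e : max (-1) (min y 1) = y := by rw [min_eq_left h6, max_eq_right h5]
        rw [e]
      · have e : max (-1) (min y 1) = 1 := by
          rw [min_eq_right h6, max_eq_right (by norm_num)]
        rw [e, abs_of_nonpos (by linarith), abs_of_nonpos (by linarith)]
        linarith
  refine ⟨M, p, fun r => max (-1) (min (v r) 1), hM, hp, fun n => (key _ _ (hf n)).2, N₀, fun N hN => ?_⟩
  exact (sum_le_sum fun n _ => (key _ _ (hf n)).1).trans (hN₀ N hN)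

theorem exists_mean {f : ℕ → ℝ} (hf : ∀ n, |f n| ≤ 1) (h : LimPer f) :
    ∃ ρ : ℝ, MT (fun n => f n - ρ) := by
  choose M p v hv using fun i : ℕ => limper_apx hf h (δ := 1 / ((i : ℝ) + 1)) (by positivity)
  have hapx : ∀ {δ : ℝ}, 0 < δ → ∃ i₀ : ℕ, ∀ i ≥ i₀, Apx f δ (M i) (p i) (v i) := by
    intro δ hδ
    obtain ⟨i₀, hi₀⟩ := exists_nat_ge (1 / δ)
    refine ⟨i₀, fun i hi => ?_⟩
    obtain ⟨h1, h2, h3, N₀, h4⟩ := hv i
    refine ⟨h1, h2, h3, N₀, fun N hN => (h4 N hN).trans ?_⟩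
    apply mul_le_mul_of_nonneg_right _ (Nat.cast_nonneg _)
    rw [div_le_iff₀ (by positivity)]
    rw [div_le_iff₀ hδ] at hi₀
    have : (i₀ : ℝ) ≤ i := by exact_mod_cast hi
    nlinarith
  set ρ : ℕ → ℝ := fun i => mn (M i) (p i) (v i) with hρ
  have hcau : CauchySeq ρ := by
    rw [Metric.cauchySeq_iff']
    intro ε hε
    obtain ⟨δ, hδ, hcl⟩ := close f (ε := ε / 2) (by positivity)
    obtain ⟨i₀, hi₀⟩ := hapx hδ
    refine ⟨i₀, fun i hi => ?_⟩
    rw [Real.dist_eq]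
    have := hcl _ _ _ _ _ _ (hi₀ i hi) (hi₀ i₀ le_rfl)
    have h2 : |ρ i - ρ i₀| ≤ ε / 2 := this
    linarith
  obtain ⟨l, hl⟩ := cauchySeq_tendsto_of_complete hcau
  refine ⟨l, mt_of_lp fun η hη => ?_⟩
  obtain ⟨i₀, hi₀⟩ := hapx hη
  rw [Metric.tendsto_atTop] at hl
  obtain ⟨i₁, hi₁⟩ := hl η hη
  set i := max i₀ i₁ with hi
  obtain ⟨h1, h2, h3, N₀, h4⟩ := hi₀ i (le_max_left _ _)
  refine ⟨M i, p i, fun r => v i r - l, h1, h2, fun n => ?_, ?_, N₀, fun N hN => ?_⟩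
  · rw [sub_sub_sub_cancel_right]; exact h3 n
  · have h5 := hi₁ i (le_max_right _ _)
    rw [Real.dist_eq] at h5
    have e1 : ∑ r ∈ range (M i), p i r * (v i r - l) = ρ i - l := by
      simp only [mul_sub, sum_sub_distrib, ← sum_mul]
      rw [h2.1.1, one_mul]
      rfl
    rw [e1]
    exact h5.le
  · simp only [sub_sub_sub_cancel_right]
    exact h4 N hN

end Pool.Agent.W5h41.DL
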