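import Pool.Agent.W5h41.DL.C

set_option autoImplicit false

/-! # Mean values along the trajectories of the Collatz map -/

namespace Pool.Agent.W5h41.DL

open Finset Filter Topology
open Pool.Agent.W5h47.BD (T log_le_time zd_union zd_small zd_of T_iter_pos)
open Pool.Agent.H499R2.ND (Dn zd_mono)

/-- the mean of `g` along almost all complete trajectories, and along the part with terms of size at
least `n ^ c`, is `ρ` -/
def CoMean (g : ℕ → ℂ) (ρ : ℂ) : Prop :=
  (∀ ε : ℝ, 0 < ε → Dn (fun n => ∃ l : ℕ, (Co^[l] n = 1 ∧ ∀ j < l, Co^[j] n ≠ 1) ∧ ∃ s ≤ l,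
    ε * l < ‖∑ k ∈ range s, (g (Co^[k] n) - ρ)‖) 0) ∧
  ∀ c ε : ℝ, 0 < c → 0 < ε → Dn (fun n : ℕ => ∃ s : ℕ,
    (∀ k < s, (n : ℝ) ^ c ≤ ((Co^[k] n : ℕ) : ℝ)) ∧
    ε * Real.log n < ‖∑ k ∈ range s, (g (Co^[k] n) - ρ)‖) 0

/-- the condition for the accelerated map -/
def MC (g : ℕ → ℝ) (ρ : ℝ) : Prop := MT (fun n => (g n - ρ) + ev (fun m => g m - ρ) n)

theorem ev_smul (g : ℕ → ℝ) (c : ℝ) (n : ℕ) : ev (fun m => c * g m) n = c * ev g n := by
  unfold ev; split_ifs <;> simp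

theorem complete_of_mc {g : ℕ → ℝ} {ρ : ℝ} (hg : ∀ n, |g n| ≤ 1) (h : MC g ρ) (ε : ℝ) (hε : 0 < ε) :
    Dn (fun n => ∃ l : ℕ, (Co^[l] n = 1 ∧ ∀ j < l, Co^[j] n ≠ 1) ∧ ∃ s ≤ l,
      ε * l < |∑ k ∈ range s, (g (Co^[k] n) - ρ)|) 0 := by
  set c : ℝ := 1 / (1 + |ρ|) with hc
  have hc0 : 0 < c := by positivity
  have h1 := co_complete (g := fun n => c * (g n - ρ)) (by
    intro n
    rw [abs_mul, abs_of_pos hc0, hc, one_div_mul_eq_div, div_le_one (by positivity)]
    refine (abs_sub _ _).trans ?_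
    have := hg n
    linarith) (by
    refine mt_congr (mt_smul h c) fun n _ => ?_
    rw [ev_smul]; ring) (c * ε) (by positivity)
  refine zd_mono h1 ?_
  rintro n hn ⟨l, hl, s, hs, h2⟩
  refine ⟨l, hl, s, hs, ?_⟩
  rw [← mul_sum, abs_mul, abs_of_pos hc0, mul_assoc]
  exact mul_lt_mul_of_pos_left h2 hc0

theorem partial_of_mc {g : ℕ → ℝ} {ρ : ℝ} (hg : ∀ n, |g n| ≤ 1) (h : MC g ρ) (b ε : ℝ) (hb : 0 < b)
    (hε : 0 < ε) : Dn (fun n : ℕ => ∃ s : ℕ, (∀ k < s, (n : ℝ) ^ b ≤ ((Co^[k] n : ℕ) : ℝ)) ∧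
      ε * Real.log n < |∑ k ∈ range s, (g (Co^[k] n) - ρ)|) 0 := by
  set c : ℝ := 1 / (1 + |ρ|) with hc
  have hc0 : 0 < c := by positivity
  have h1 := co_partial (g := fun n => c * (g n - ρ)) (by
    intro n
    rw [abs_mul, abs_of_pos hc0, hc, one_div_mul_eq_div, div_le_one (by positivity)]
    refine (abs_sub _ _).trans ?_
    have := hg n
    linarith) (by
    refine mt_congr (mt_smul h c) fun n _ => ?_
    rw [ev_smul]; ring) b (c * ε) hb (by positivity)
  refine zd_mono h1 ?_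
  rintro n hn ⟨s, hs, h2⟩
  refine ⟨s, hs, ?_⟩
  rw [← mul_sum, abs_mul, abs_of_pos hc0, mul_assoc]
  exact mul_lt_mul_of_pos_left h2 hc0

theorem norm_parts {z : ℂ} {x : ℝ} (h : x < ‖z‖) : x / 2 < |z.re| ∨ x / 2 < |z.im| := by
  by_contra hcon
  rw [not_or] at hcon
  obtain ⟨c1, c2⟩ := hcon
  have := Complex.norm_le_abs_re_add_abs_im z
  have := not_lt.1 c1
  have := not_lt.1 c2
  linarith

theorem comean_of_parts {g : ℕ → ℂ} {ρ : ℂ} (hg : ∀ n, ‖g n‖ ≤ 1)
    (h1 : MC (fun n => (g n).re) ρ.re) (h2 : MC (fun n => (g n).im) ρ.im) : CoMean g ρ := by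
  have b1 : ∀ n, |(g n).re| ≤ 1 := fun n => (Complex.abs_re_le_norm _).trans (hg n)
  have b2 : ∀ n, |(g n).im| ≤ 1 := fun n => (Complex.abs_im_le_norm _).trans (hg n)
  constructor
  · intro ε hε
    refine zd_mono (zd_union (complete_of_mc b1 h1 (ε / 2) (by positivity))
      (complete_of_mc b2 h2 (ε / 2) (by positivity))) ?_
    rintro n hn ⟨l, hl, s, hs, h⟩
    rcases norm_parts h with h3 | h3
    · left
      refine ⟨l, hl, s, hs, ?_⟩
      rw [Complex.re_sum] at h3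
      simp only [Complex.sub_re] at h3
      rwa [div_mul_eq_mul_div]
    · right
      refine ⟨l, hl, s, hs, ?_⟩
      rw [Complex.im_sum] at h3
      simp only [Complex.sub_im] at h3
      rwa [div_mul_eq_mul_div]
  · intro c ε hc hε
    refine zd_mono (zd_union (partial_of_mc b1 h1 c (ε / 2) hc (by positivity))
      (partial_of_mc b2 h2 c (ε / 2) hc (by positivity))) ?_
    rintro n hn ⟨s, hs, h⟩
    rcases norm_parts h with h3 | h3
    · left
      refine ⟨s, hs, ?_⟩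
      rw [Complex.re_sum] at h3
      simp only [Complex.sub_re] at h3
      rwa [div_mul_eq_mul_div]
    · right
      refine ⟨s, hs, ?_⟩
      rw [Complex.im_sum] at h3
      simp only [Complex.sub_im] at h3
      rwa [div_mul_eq_mul_div]

/-- the error at the terms `3 n + 1` -/
theorem ev_error {w : ℕ → ℝ} (hw : ∀ n, 0 ≤ w n) {δ : ℝ} (hδ : 0 ≤ δ) {N₀ : ℕ}
    (h : ∀ N ≥ N₀, ∑ n ∈ Icc 1 N, w n ≤ δ * N) {N : ℕ} (hN : max N₀ 1 ≤ N) :
    ∑ n ∈ Icc 1 N, (w n + if n % 2 = 0 then 0 else w (3 * n + 1)) ≤ 5 * δ * N := by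
  have h0 : N₀ ≤ N := (le_max_left _ _).trans hN
  have h1 : 1 ≤ N := (le_max_right _ _).trans hN
  rw [sum_add_distrib]
  have e1 : ∑ n ∈ Icc 1 N, (if n % 2 = 0 then 0 else w (3 * n + 1)) ≤ ∑ m ∈ Icc 1 (3 * N + 1), w m := by
    calc ∑ n ∈ Icc 1 N, (if n % 2 = 0 then 0 else w (3 * n + 1)) ≤ ∑ n ∈ Icc 1 N, w (3 * n + 1) := by
          apply sum_le_sum
          intro n _
          split_ifs
          · exact hw _
          · exact le_rfl
      _ = ∑ m ∈ (Icc 1 N).image (fun n => 3 * n + 1), w m := by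
          rw [sum_image]
          intro x _ y _ hxy
          simp only at hxy
          omega
      _ ≤ ∑ m ∈ Icc 1 (3 * N + 1), w m := by
          apply sum_le_sum_of_subset_of_nonneg _ fun m _ _ => hw m
          intro m hm
          rw [mem_image] at hm
          obtain ⟨n, hn, rfl⟩ := hm
          rw [mem_Icc] at hn ⊢
          omega
  have e2 := h (3 * N + 1) (by omega)
  have e3 := h N h0
  push_cast at e2
  have h2 : (1 : ℝ) ≤ N := by exact_mod_cast h1
  nlinarith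

theorem limper_ev {g : ℕ → ℝ} (h : LimPer g) : LimPer (fun n => g n + ev g n) := by
  intro η hη
  obtain ⟨M, hM, v, N₀, hN₀⟩ := h (η / 5) (by positivity)
  refine ⟨2 * M, by omega, fun r => v (r % M) + if r % 2 = 0 then 0 else v ((3 * r + 1) % M),
    max N₀ 1, fun N hN => ?_⟩
  have key : ∀ n : ℕ, |(g n + ev g n) - (v (n % (2 * M) % M) + if n % (2 * M) % 2 = 0 then 0 else
      v ((3 * (n % (2 * M)) + 1) % M))| ≤ |g n - v (n % M)| +
      if n % 2 = 0 then 0 else |g (3 * n + 1) - v ((3 * n + 1) % M)| := by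
    intro n
    have a1 : n % (2 * M) % M = n % M := Nat.mod_mul_left_mod n 2 M
    have a2 : n % (2 * M) % 2 = n % 2 := Nat.mod_mul_right_mod n 2 M
    have a3 : (3 * (n % (2 * M)) + 1) % M = (3 * n + 1) % M := by
      rw [Nat.add_mod, Nat.mul_mod, a1, ← Nat.mul_mod, ← Nat.add_mod]
    rw [a1, a2, a3]
    unfold ev
    split_ifs with h0
    · simp
    · have := abs_add_le (g n - v (n % M)) (g (3 * n + 1) - v ((3 * n + 1) % M))
      refine le_trans (le_of_eq ?_) this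
      congr 1
      ring
  refine (sum_le_sum fun n _ => key n).trans ?_
  have := ev_error (w := fun n => |g n - v (n % M)|) (fun _ => abs_nonneg _) (by positivity) hN₀ hN
  linarith

/-- GENERAL THEOREM: the mean exists for limit periodic functions -/
theorem general {g : ℕ → ℝ} (hg : ∀ n, |g n| ≤ 1) (h : LimPer g) : ∃ ρ : ℝ, MC g ρ := by
  have hev : ∀ n, |ev g n| ≤ 1 := by
    intro n
    unfold ev
    split_ifs
    · simp
    · exact hg _
  have h1 : LimPer (fun n => (g n + ev g n) / 2) := by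
    intro η hη
    obtain ⟨M, hM, v, N₀, hN₀⟩ := limper_ev h η hη
    refine ⟨M, hM, fun r => v r / 2, N₀, fun N hN => ?_⟩
    refine le_trans ?_ (hN₀ N hN)
    apply sum_le_sum
    intro n _
    rw [← sub_div, abs_div, abs_two]
    have : 0 ≤ |g n + ev g n - v (n % M)| := abs_nonneg _
    linarith
  obtain ⟨ρ, hρ⟩ := exists_mean (by
    intro n
    rw [abs_div, abs_two]
    have := abs_add_le (g n) (ev g n)
    have := hg n
    have := hev n
    linarith) h1
  refine ⟨4 * ρ / 3, ?_⟩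
  refine mt_congr (mt_add (mt_smul hρ 2) (mt_smul mt_par (-(4 * ρ / 3)))) fun n _ => ?_
  unfold ev
  split_ifs <;> ring

end Pool.Agent.W5h41.DL
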