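import Mathlib

set_option autoImplicit false

/-! # Multiplicative functions: periodic approximations and their means -/

namespace Pool.Agent.W5h41.DL

open Finset Filter Topology

/-- the number of the `j < K` with `p ^ (j + 1) ∣ r`, that is the minimum of `K` and the exponent -/
def ee (p K r : ℕ) : ℕ := ((range K).filter (fun j => p ^ (j + 1) ∣ r)).card

theorem ee_le (p K r : ℕ) : ee p K r ≤ K := by
  unfold ee
  refine (card_filter_le _ _).trans ?_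
  rw [card_range]

theorem ee_mod {p K M n : ℕ} (h : p ^ K ∣ M) : ee p K (n % M) = ee p K n := by
  unfold ee
  congr 1
  apply filter_congr
  intro j hj
  rw [mem_range] at hj
  exact Nat.dvd_mod_iff ((pow_dvd_pow p (by omega)).trans h)

theorem ee_eq {p K n : ℕ} (hp : p.Prime) (hn : n ≠ 0) (h : ¬ p ^ (K + 1) ∣ n) :
    ee p K n = n.factorization p := by
  have h1 : n.factorization p ≤ K := by
    by_contra hc
    exact h ((hp.pow_dvd_iff_le_factorization hn).2 (by omega))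
  unfold ee
  have h2 : (range K).filter (fun j => p ^ (j + 1) ∣ n) = range (n.factorization p) := by
    ext j
    rw [mem_filter, mem_range, mem_range, hp.pow_dvd_iff_le_factorization hn]
    omega
  rw [h2, card_range]

theorem ee_zero {p K r : ℕ} (h : ¬ p ∣ r) : ee p K r = 0 := by
  unfold ee
  rw [card_eq_zero, filter_eq_empty_iff]
  intro j _ hd
  exact h ((dvd_pow_self p (by omega)).trans hd)

theorem ee_mul {p K r : ℕ} (hp : 0 < p) : ee p (K + 1) (p * r) = ee p K r + 1 := by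
  unfold ee
  rw [range_add_one', filter_insert, if_pos (by simp), card_insert_of_notMem (by simp), filter_map,
    card_map]
  congr 2
  apply filter_congr
  intro j _
  show p ^ (j + 1 + 1) ∣ p * r ↔ p ^ (j + 1) ∣ r
  rw [pow_succ' p (j + 1), Nat.mul_dvd_mul_iff_left hp]

/-- the local sums -/
noncomputable def ls (p K : ℕ) (F : ℕ → ℂ) : ℂ := ∑ r ∈ range (p ^ K), F (ee p K r)

theorem ls_succ {p : ℕ} (hp : 0 < p) (K : ℕ) (F : ℕ → ℂ) :
    ls p (K + 1) F = ((p : ℂ) ^ (K + 1) - (p : ℂ) ^ K) * F 0 + ls p K (fun j => F (j + 1)) := by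
  unfold ls
  rw [← sum_filter_add_sum_filter_not (range (p ^ (K + 1))) (fun r => p ∣ r)]
  have h1 : (range (p ^ (K + 1))).filter (fun r => p ∣ r) = (range (p ^ K)).image (fun r => p * r) := by
    ext r
    rw [mem_filter, mem_range, mem_image]
    constructor
    · rintro ⟨h2, c, rfl⟩
      refine ⟨c, ?_, rfl⟩
      rw [mem_range]
      rw [pow_succ'] at h2
      exact lt_of_mul_lt_mul_left h2 hp.le
    · rintro ⟨c, hc, rfl⟩
      rw [mem_range] at hc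
      refine ⟨?_, Dvd.intro _ rfl⟩
      rw [pow_succ']
      exact Nat.mul_lt_mul_of_pos_left hc hp
  have h2 : (range (p ^ (K + 1))).card = ((range (p ^ (K + 1))).filter (fun r => p ∣ r)).card +
      ((range (p ^ (K + 1))).filter (fun r => ¬ p ∣ r)).card :=
    (card_filter_add_card_filter_not _).symm
  have h3 : ((range (p ^ (K + 1))).filter (fun r => p ∣ r)).card = p ^ K := by
    rw [h1, card_image_of_injective _ (fun a b h => Nat.eq_of_mul_eq_mul_left hp h), card_range]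
  have h4 : (((range (p ^ (K + 1))).filter (fun r => ¬ p ∣ r)).card : ℂ) =
      (p : ℂ) ^ (K + 1) - (p : ℂ) ^ K := by
    rw [h3, card_range] at h2
    have : ((p ^ (K + 1) : ℕ) : ℂ) = ((p ^ K : ℕ) : ℂ) +
      (((range (p ^ (K + 1))).filter (fun r => ¬ p ∣ r)).card : ℂ) := by exact_mod_cast h2
    push_cast at this
    rw [this]; ring
  rw [h1, sum_image (fun a _ b _ h => Nat.eq_of_mul_eq_mul_left hp h), add_comm]
  congr 1
  · rw [← h4, ← nsmul_eq_mul, ← sum_const]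
    apply sum_congr rfl
    intro r hr
    rw [ee_zero (mem_filter.1 hr).2]
  · apply sum_congr rfl
    intro r _
    rw [ee_mul hp]

/-- the local means -/
noncomputable def lm (p K : ℕ) (F : ℕ → ℂ) : ℂ := ls p K F / (p : ℂ) ^ K

theorem lm_eq {p : ℕ} (hp : 0 < p) : ∀ (K : ℕ) (F : ℕ → ℂ),
    lm p K F = (1 - 1 / (p : ℂ)) * ∑ j ∈ range K, F j / (p : ℂ) ^ j + F K / (p : ℂ) ^ K := by
  have hp0 : (p : ℂ) ≠ 0 := by exact_mod_cast hp.ne'
  intro K
  induction K with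
  | zero =>
    intro F
    unfold lm ls ee
    simp
  | succ K ih =>
    intro F
    have h1 := ih (fun j => F (j + 1))
    unfold lm at h1 ⊢
    rw [ls_succ hp, add_div]
    have e1 : ls p K (fun j => F (j + 1)) / (p : ℂ) ^ (K + 1) =
        (ls p K (fun j => F (j + 1)) / (p : ℂ) ^ K) / p := by
      rw [pow_succ, div_div]
    rw [e1, h1, sum_range_succ']
    have e2 : ∑ j ∈ range K, F (j + 1) / (p : ℂ) ^ (j + 1) = (∑ j ∈ range K, F (j + 1) / (p : ℂ) ^ j) / p := by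
      rw [sum_div]
      apply sum_congr rfl
      intro j _
      rw [pow_succ, div_div]
    rw [e2]
    have e3 : ((p : ℂ) ^ (K + 1) - (p : ℂ) ^ K) * F 0 / (p : ℂ) ^ (K + 1) = (1 - 1 / (p : ℂ)) * F 0 := by
      rw [pow_succ]
      field_simp
    rw [e3]
    rw [pow_succ, pow_zero]
    field_simp
    ring

/-- the Chinese remainder theorem for sums -/
theorem crt_sum {A B : ℕ} (hA : 0 < A) (hB : 0 < B) (co : A.Coprime B) (f h : ℕ → ℂ)
    (hf : ∀ n, f (n % A) = f n) (hh : ∀ n, h (n % B) = h n) :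
    ∑ r ∈ range (A * B), f r * h r = (∑ r ∈ range A, f r) * ∑ r ∈ range B, h r := by
  rw [sum_mul_sum, ← sum_product']
  refine sum_bij' (fun r _ => (r % A, r % B)) (fun x _ => ((Nat.chineseRemainder co x.1 x.2 : ℕ)))
    ?_ ?_ ?_ ?_ ?_
  · intro r _
    rw [mem_product, mem_range, mem_range]
    exact ⟨Nat.mod_lt _ hA, Nat.mod_lt _ hB⟩
  · intro x _
    rw [mem_range]
    exact Nat.chineseRemainder_lt_mul co _ _ hA.ne' hB.ne'
  · intro r hr
    rw [mem_range] at hr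
    obtain ⟨h1, h2⟩ := (Nat.chineseRemainder co (r % A) (r % B)).2
    have h3 : (Nat.chineseRemainder co (r % A) (r % B) : ℕ) ≡ r [MOD A * B] :=
      (Nat.modEq_and_modEq_iff_modEq_mul co).1 ⟨h1.trans (Nat.mod_modEq _ _), h2.trans (Nat.mod_modEq _ _)⟩
    exact Nat.ModEq.eq_of_lt_of_lt h3 (Nat.chineseRemainder_lt_mul co _ _ hA.ne' hB.ne') hr
  · rintro ⟨a, b⟩ hx
    rw [mem_product, mem_range, mem_range] at hx
    obtain ⟨h1, h2⟩ := (Nat.chineseRemainder co a b).2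
    simp only
    rw [Prod.mk.injEq]
    constructor
    · have : (Nat.chineseRemainder co a b : ℕ) % A = a % A := h1
      rw [this, Nat.mod_eq_of_lt hx.1]
    · have : (Nat.chineseRemainder co a b : ℕ) % B = b % B := h2
      rw [this, Nat.mod_eq_of_lt hx.2]
  · intro r _
    simp only
    rw [hf, hh]

/-- the periodic approximation -/
noncomputable def VV (S : Finset ℕ) (K : ℕ) (G : ℕ → ℕ → ℂ) (r : ℕ) : ℂ := ∏ p ∈ S, G p (ee p K r)

/-- its period -/
def MM (S : Finset ℕ) (K : ℕ) : ℕ := ∏ p ∈ S, p ^ K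

theorem MM_pos {S : Finset ℕ} (hS : ∀ p ∈ S, p.Prime) (K : ℕ) : 0 < MM S K :=
  Finset.prod_pos fun p hp => pow_pos (hS p hp).pos K

theorem VV_mod {S : Finset ℕ} {K : ℕ} (G : ℕ → ℕ → ℂ) (n : ℕ) : VV S K G (n % MM S K) = VV S K G n := by
  unfold VV
  apply prod_congr rfl
  intro p hp
  rw [ee_mod]
  exact Finset.dvd_prod_of_mem (fun p => p ^ K) hp

theorem VV_sum {S : Finset ℕ} (hS : ∀ p ∈ S, p.Prime) (K : ℕ) (G : ℕ → ℕ → ℂ) :
    ∑ r ∈ range (MM S K), VV S K G r = ∏ p ∈ S, ls p K (G p) := by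
  induction S using Finset.induction with
  | empty => simp [MM, VV]
  | insert p S hpS ih =>
    have hS' : ∀ q ∈ S, q.Prime := fun q hq => hS q (mem_insert_of_mem hq)
    have hp : p.Prime := hS p (mem_insert_self _ _)
    have h1 := ih hS'
    have e1 : MM (insert p S) K = p ^ K * MM S K := by
      unfold MM; rw [prod_insert hpS]
    have co : (p ^ K).Coprime (MM S K) := by
      unfold MM
      apply Nat.Coprime.prod_right
      intro q hq
      apply Nat.Coprime.pow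
      exact (Nat.coprime_primes hp (hS' q hq)).2 fun h => hpS (h ▸ hq)
    rw [e1, prod_insert hpS, ← h1]
    unfold ls
    rw [← crt_sum (pow_pos hp.pos K) (MM_pos hS' K) co (fun r => G p (ee p K r)) (VV S K G)
      (fun n => by rw [ee_mod dvd_rfl]) (fun n => VV_mod G n)]
    apply sum_congr rfl
    intro r _
    unfold VV
    rw [prod_insert hpS]

/-- the mean of the periodic approximation -/
theorem VV_mean {S : Finset ℕ} (hS : ∀ p ∈ S, p.Prime) (K : ℕ) (G : ℕ → ℕ → ℂ) :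
    (∑ r ∈ range (MM S K), VV S K G r) / (MM S K : ℂ) = ∏ p ∈ S, lm p K (G p) := by
  rw [VV_sum hS]
  unfold lm MM
  rw [prod_div_distrib]
  push_cast
  rfl

theorem prod_norm_le {ι : Type*} (S : Finset ι) (x : ι → ℂ) (hx : ∀ i ∈ S, ‖x i‖ ≤ 1) :
    ‖∏ i ∈ S, x i‖ ≤ 1 := by
  rw [norm_prod]
  exact prod_le_one (fun i _ => norm_nonneg _) hx

theorem prod_sub_le {ι : Type*} (S : Finset ι) (x y : ι → ℂ) (hx : ∀ i ∈ S, ‖x i‖ ≤ 1)
    (hy : ∀ i ∈ S, ‖y i‖ ≤ 1) : ‖∏ i ∈ S, x i - ∏ i ∈ S, y i‖ ≤ ∑ i ∈ S, ‖x i - y i‖ := by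
  classical
  induction S using Finset.induction with
  | empty => simp
  | insert a S ha ih =>
    rw [prod_insert ha, prod_insert ha, sum_insert ha]
    have h1 := ih (fun i hi => hx i (mem_insert_of_mem hi)) (fun i hi => hy i (mem_insert_of_mem hi))
    have e1 : x a * ∏ i ∈ S, x i - y a * ∏ i ∈ S, y i =
        (x a - y a) * ∏ i ∈ S, x i + y a * (∏ i ∈ S, x i - ∏ i ∈ S, y i) := by ring
    rw [e1]
    refine (norm_add_le _ _).trans ?_
    rw [norm_mul, norm_mul]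
    have h2 : ‖∏ i ∈ S, x i‖ ≤ 1 := prod_norm_le S x fun i hi => hx i (mem_insert_of_mem hi)
    have h3 : ‖y a‖ ≤ 1 := hy a (mem_insert_self _ _)
    have h4 : ‖x a - y a‖ * ‖∏ i ∈ S, x i‖ ≤ ‖x a - y a‖ * 1 := by gcongr
    have h5 : ‖y a‖ * ‖∏ i ∈ S, x i - ∏ i ∈ S, y i‖ ≤ 1 * ‖∏ i ∈ S, x i - ∏ i ∈ S, y i‖ := by gcongr
    linarith

/-- the local factor -/
noncomputable def LF (g : ℕ → ℂ) (p : ℕ) : ℂ := (1 - 1 / (p : ℂ)) * ∑' j : ℕ, g (p ^ j) / (p : ℂ) ^ j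

theorem lf_summable {g : ℕ → ℂ} (hg : ∀ n, ‖g n‖ ≤ 1) {p : ℕ} (hp : 2 ≤ p) :
    Summable (fun j : ℕ => g (p ^ j) / (p : ℂ) ^ j) := by
  have hp2 : (2 : ℝ) ≤ p := by exact_mod_cast hp
  apply Summable.of_norm_bounded (g := fun j : ℕ => (1 / (p : ℝ)) ^ j)
  · apply summable_geometric_of_lt_one (by positivity)
    rw [div_lt_one (by linarith)]; linarith
  · intro j
    rw [norm_div, norm_pow, Complex.norm_natCast, one_div, inv_pow, ← one_div]
    gcongr
    exact hg _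

theorem geom_tail {p : ℕ} (hp : 2 ≤ p) (K : ℕ) :
    ∑' j : ℕ, (1 / (p : ℝ)) ^ (j + K) = (1 / (p : ℝ)) ^ K / (1 - 1 / (p : ℝ)) := by
  have hp2 : (2 : ℝ) ≤ p := by exact_mod_cast hp
  have h1 : 1 / (p : ℝ) < 1 := by rw [div_lt_one (by linarith)]; linarith
  simp only [pow_add]
  rw [tsum_mul_right, tsum_geometric_of_lt_one (by positivity) h1]
  field_simp

theorem lf_norm {g : ℕ → ℂ} (hg : ∀ n, ‖g n‖ ≤ 1) {p : ℕ} (hp : 2 ≤ p) : ‖LF g p‖ ≤ 1 := by
  have hp2 : (2 : ℝ) ≤ p := by exact_mod_cast hp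
  have h1 : 1 / (p : ℝ) < 1 := by rw [div_lt_one (by linarith)]; linarith
  have h2 : (0 : ℝ) < 1 - 1 / (p : ℝ) := by linarith
  unfold LF
  rw [norm_mul]
  have e1 : ‖(1 - 1 / (p : ℂ))‖ = 1 - 1 / (p : ℝ) := by
    have : (1 - 1 / (p : ℂ)) = ((1 - 1 / (p : ℝ) : ℝ) : ℂ) := by push_cast; rfl
    rw [this, Complex.norm_real, Real.norm_of_nonneg h2.le]
  have e2 : ‖∑' j : ℕ, g (p ^ j) / (p : ℂ) ^ j‖ ≤ ∑' j : ℕ, (1 / (p : ℝ)) ^ j := by
    apply tsum_of_norm_bounded (summable_geometric_of_lt_one (by positivity) h1).hasSum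
    intro j
    rw [norm_div, norm_pow, Complex.norm_natCast, one_div, inv_pow, ← one_div]
    gcongr
    exact hg _
  rw [tsum_geometric_of_lt_one (by positivity) h1] at e2
  rw [e1]
  calc (1 - 1 / (p : ℝ)) * ‖∑' j : ℕ, g (p ^ j) / (p : ℂ) ^ j‖ ≤ (1 - 1 / (p : ℝ)) * (1 - 1 / (p : ℝ))⁻¹ := by
        gcongr
    _ = 1 := mul_inv_cancel₀ h2.ne'

theorem lm_norm {p K : ℕ} (hp : 0 < p) {F : ℕ → ℂ} (hF : ∀ j, ‖F j‖ ≤ 1) : ‖lm p K F‖ ≤ 1 := by
  have hp0 : (0 : ℝ) < (p : ℝ) ^ K := by positivity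
  unfold lm ls
  rw [norm_div, norm_pow, Complex.norm_natCast, div_le_one hp0]
  refine (norm_sum_le _ _).trans ((sum_le_sum fun r _ => hF _).trans ?_)
  rw [sum_const, card_range, nsmul_eq_mul, mul_one]
  push_cast
  rfl

theorem lm_lf {g : ℕ → ℂ} (hg : ∀ n, ‖g n‖ ≤ 1) {p : ℕ} (hp : 2 ≤ p) (K : ℕ) :
    ‖lm p K (fun j => g (p ^ j)) - LF g p‖ ≤ 2 / 2 ^ K := by
  have hp2 : (2 : ℝ) ≤ p := by exact_mod_cast hp
  have hp0 : (0 : ℝ) < p := by linarith
  have h1 : 1 / (p : ℝ) < 1 := by rw [div_lt_one (by linarith)]; linarith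
  have h2 : (0 : ℝ) < 1 - 1 / (p : ℝ) := by linarith
  rw [lm_eq (by omega)]
  unfold LF
  rw [← (lf_summable hg hp).sum_add_tsum_nat_add K]
  have e0 : (1 - 1 / (p : ℂ)) * ∑ j ∈ range K, g (p ^ j) / (p : ℂ) ^ j + g (p ^ K) / (p : ℂ) ^ K -
      (1 - 1 / (p : ℂ)) * (∑ j ∈ range K, g (p ^ j) / (p : ℂ) ^ j +
        ∑' j : ℕ, g (p ^ (j + K)) / (p : ℂ) ^ (j + K)) =
      g (p ^ K) / (p : ℂ) ^ K - (1 - 1 / (p : ℂ)) * ∑' j : ℕ, g (p ^ (j + K)) / (p : ℂ) ^ (j + K) := by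
    ring
  rw [e0]
  refine (norm_sub_le _ _).trans ?_
  rw [norm_mul]
  have e1 : ‖(1 - 1 / (p : ℂ))‖ = 1 - 1 / (p : ℝ) := by
    have : (1 - 1 / (p : ℂ)) = ((1 - 1 / (p : ℝ) : ℝ) : ℂ) := by push_cast; rfl
    rw [this, Complex.norm_real, Real.norm_of_nonneg h2.le]
  have e2 : ‖∑' j : ℕ, g (p ^ (j + K)) / (p : ℂ) ^ (j + K)‖ ≤ (1 / (p : ℝ)) ^ K / (1 - 1 / (p : ℝ)) := by
    rw [← geom_tail hp K]
    have hs : Summable (fun j : ℕ => (1 / (p : ℝ)) ^ (j + K)) :=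
      (summable_nat_add_iff K).2 (summable_geometric_of_lt_one (by positivity) h1)
    apply tsum_of_norm_bounded hs.hasSum
    intro j
    rw [norm_div, norm_pow, Complex.norm_natCast, one_div, inv_pow, ← one_div]
    gcongr
    exact hg _
  have e3 : ‖g (p ^ K) / (p : ℂ) ^ K‖ ≤ (1 / (p : ℝ)) ^ K := by
    rw [norm_div, norm_pow, Complex.norm_natCast, one_div, inv_pow, ← one_div]
    gcongr
    exact hg _
  have e4 : (1 / (p : ℝ)) ^ K ≤ 1 / 2 ^ K := by
    rw [div_pow, one_pow]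
    gcongr
  rw [e1]
  have e5 : (1 - 1 / (p : ℝ)) * ‖∑' j : ℕ, g (p ^ (j + K)) / (p : ℂ) ^ (j + K)‖ ≤ (1 / (p : ℝ)) ^ K := by
    calc (1 - 1 / (p : ℝ)) * ‖∑' j : ℕ, g (p ^ (j + K)) / (p : ℂ) ^ (j + K)‖
        ≤ (1 - 1 / (p : ℝ)) * ((1 / (p : ℝ)) ^ K / (1 - 1 / (p : ℝ))) := by gcongr
      _ = (1 / (p : ℝ)) ^ K := by rw [mul_div_assoc', mul_div_cancel_left₀ _ h2.ne']
  have e6 : (2 : ℝ) / 2 ^ K = 1 / 2 ^ K + 1 / 2 ^ K := by ring
  rw [e6]
  linarith

end Pool.Agent.W5h41.DL
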