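import Pool.Agent.W5h41.DL.E

set_option autoImplicit false

/-! # Multiplicative functions: the error of the periodic approximations -/

namespace Pool.Agent.W5h41.DL

open Finset Filter Topology

/-- multiplicative functions -/
def Mul (g : ℕ → ℂ) : Prop := g 1 = 1 ∧ ∀ m n : ℕ, m.Coprime n → g (m * n) = g m * g n

/-- the part prime to three -/
noncomputable def g3 (g : ℕ → ℂ) (n : ℕ) : ℂ := ∏ p ∈ n.primeFactors.erase 3, g (p ^ n.factorization p)

/-- the primes up to `P` other than three -/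
def SP (P : ℕ) : Finset ℕ := ((range (P + 1)).filter Nat.Prime).erase 3

theorem mem_SP {P p : ℕ} : p ∈ SP P ↔ p ≠ 3 ∧ p ≤ P ∧ p.Prime := by
  unfold SP
  rw [mem_erase, mem_filter, mem_range]
  constructor
  · rintro ⟨h1, h2, h3⟩; exact ⟨h1, by omega, h3⟩
  · rintro ⟨h1, h2, h3⟩; exact ⟨h1, by omega, h3⟩

theorem SP_prime {P p : ℕ} (h : p ∈ SP P) : p.Prime := (mem_SP.1 h).2.2

theorem SP_mono {P Q : ℕ} (h : P ≤ Q) : SP P ⊆ SP Q := by
  intro p hp
  rw [mem_SP] at hp ⊢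
  exact ⟨hp.1, hp.2.1.trans h, hp.2.2⟩

theorem SP_card (P : ℕ) : (SP P).card ≤ P + 1 := by
  unfold SP
  refine (card_erase_le).trans ((card_filter_le _ _).trans ?_)
  rw [card_range]

theorem g3_eq {g : ℕ → ℂ} (hg : Mul g) {n : ℕ} (hn : n ≠ 0) (h3 : ¬ 3 ∣ n) : g n = g3 g n := by
  rw [Nat.multiplicative_factorization g hg.2 hg.1 hn]
  unfold g3 Finsupp.prod
  rw [Nat.support_factorization, erase_eq_of_notMem]
  intro h
  exact h3 (Nat.dvd_of_mem_primeFactors h)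

theorem g3_prod {g : ℕ → ℂ} (hg : g 1 = 1) {n N : ℕ} (hn : n ≠ 0) (hN : n ≤ N) :
    g3 g n = ∏ p ∈ SP N, g (p ^ n.factorization p) := by
  unfold g3
  apply prod_subset
  · intro p hp
    rw [mem_erase, Nat.mem_primeFactors] at hp
    rw [mem_SP]
    exact ⟨hp.1, (Nat.le_of_dvd (by omega) hp.2.2.1).trans hN, hp.2.1⟩
  · intro p hp hp'
    rw [mem_SP] at hp
    rw [mem_erase, Nat.mem_primeFactors] at hp'
    have h1 : ¬ p ∣ n := fun h => hp' ⟨hp.1, hp.2.2, h, hn⟩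
    rw [Nat.factorization_eq_zero_of_not_dvd h1, pow_zero, hg]

theorem g3_norm {g : ℕ → ℂ} (hg : ∀ n, ‖g n‖ ≤ 1) (n : ℕ) : ‖g3 g n‖ ≤ 1 :=
  prod_norm_le _ _ fun _ _ => hg _

/-- the values -/
def GG (g : ℕ → ℂ) (p j : ℕ) : ℂ := g (p ^ j)

theorem VV_norm {g : ℕ → ℂ} (hg : ∀ n, ‖g n‖ ≤ 1) (S : Finset ℕ) (K n : ℕ) : ‖VV S K (GG g) n‖ ≤ 1 :=
  prod_norm_le _ _ fun _ _ => hg _

theorem pointwise {g : ℕ → ℂ} (hg1 : g 1 = 1) (hg : ∀ n, ‖g n‖ ≤ 1) {n N P K : ℕ} (hn : n ≠ 0)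
    (hN : n ≤ N) (hP : P ≤ N) : ‖g3 g n - VV (SP P) K (GG g) n‖ ≤
      ∑ p ∈ SP P, (if p ^ (K + 1) ∣ n then (2 : ℝ) else 0) +
      ∑ p ∈ SP N \ SP P, ((if p ∣ n then ‖1 - g p‖ else 0) + if p ^ 2 ∣ n then (2 : ℝ) else 0) := by
  have e1 : VV (SP P) K (GG g) n = ∏ p ∈ SP N, (if p ∈ SP P then g (p ^ ee p K n) else 1) := by
    unfold VV GG
    rw [prod_ite_mem, inter_eq_right.2 (SP_mono hP)]
  rw [g3_prod hg1 hn hN, e1]
  refine (prod_sub_le _ _ _ (fun _ _ => hg _) (fun p _ => ?_)).trans ?_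
  · split_ifs
    · exact hg _
    · simp
  rw [← sum_sdiff (SP_mono hP), add_comm]
  apply add_le_add
  · apply sum_le_sum
    intro p hp
    rw [if_pos hp]
    split_ifs with h
    · refine (norm_sub_le _ _).trans ?_
      have := hg (p ^ n.factorization p)
      have := hg (p ^ ee p K n)
      linarith
    · rw [ee_eq (SP_prime hp) hn h, sub_self, norm_zero]
  · apply sum_le_sum
    intro p hp
    rw [Finset.mem_sdiff] at hp
    rw [if_neg hp.2]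
    have hpp := SP_prime hp.1
    by_cases h1 : p ∣ n
    · by_cases h2 : p ^ 2 ∣ n
      · rw [if_pos h1, if_pos h2]
        refine (norm_sub_le _ _).trans ?_
        have := hg (p ^ n.factorization p)
        have : (0 : ℝ) ≤ ‖1 - g p‖ := norm_nonneg _
        rw [norm_one]
        linarith
      · have h3 : n.factorization p = 1 := by
          have a1 : 1 ≤ n.factorization p := (hpp.dvd_iff_one_le_factorization hn).1 h1
          have a2 : ¬ 2 ≤ n.factorization p := fun h => h2 ((hpp.pow_dvd_iff_le_factorization hn).2 h)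
          omega
        rw [if_pos h1, if_neg h2, h3, pow_one, add_zero, norm_sub_rev]
    · rw [Nat.factorization_eq_zero_of_not_dvd h1, pow_zero, hg1, sub_self, norm_zero]
      positivity

theorem count_dvd (N : ℕ) {d : ℕ} (hd : 0 < d) {c : ℝ} (hc : 0 ≤ c) :
    ∑ n ∈ Icc 1 N, (if d ∣ n then c else 0) ≤ c / d * N := by
  rw [← sum_filter, sum_const, nsmul_eq_mul]
  have h1 : ((Icc 1 N).filter (fun n => d ∣ n)).card = N / d := Nat.Ioc_filter_dvd_card_eq_div N d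
  rw [h1]
  have h2 : ((N / d : ℕ) : ℝ) ≤ N / d := Nat.cast_div_le
  calc ((N / d : ℕ) : ℝ) * c ≤ N / d * c := by gcongr
    _ = c / d * N := by ring

theorem sum_bound {g : ℕ → ℂ} (hg1 : g 1 = 1) (hg : ∀ n, ‖g n‖ ≤ 1) {N P K : ℕ} (hP : P ≤ N) :
    ∑ n ∈ Icc 1 N, ‖g3 g n - VV (SP P) K (GG g) n‖ ≤
      ((P + 1) / 2 ^ K + ∑ p ∈ SP N \ SP P, (‖1 - g p‖ / p + 2 / (p : ℝ) ^ 2)) * N := by
  have h1 : ∑ n ∈ Icc 1 N, ‖g3 g n - VV (SP P) K (GG g) n‖ ≤ ∑ n ∈ Icc 1 N,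
      (∑ p ∈ SP P, (if p ^ (K + 1) ∣ n then (2 : ℝ) else 0) +
      ∑ p ∈ SP N \ SP P, ((if p ∣ n then ‖1 - g p‖ else 0) + if p ^ 2 ∣ n then (2 : ℝ) else 0)) := by
    apply sum_le_sum
    intro n hn
    rw [mem_Icc] at hn
    exact pointwise hg1 hg (by omega) hn.2 hP
  refine h1.trans ?_
  rw [sum_add_distrib, sum_comm, sum_comm (s := Icc 1 N) (t := SP N \ SP P), add_mul]
  apply add_le_add
  · calc ∑ p ∈ SP P, ∑ n ∈ Icc 1 N, (if p ^ (K + 1) ∣ n then (2 : ℝ) else 0)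
        ≤ ∑ p ∈ SP P, 1 / 2 ^ K * (N : ℝ) := by
          apply sum_le_sum
          intro p hp
          have hpp := (SP_prime hp).two_le
          refine (count_dvd N (pow_pos (by omega) _) (by norm_num)).trans ?_
          apply mul_le_mul_of_nonneg_right _ (Nat.cast_nonneg _)
          push_cast
          have h2 : (2 : ℝ) ^ (K + 1) ≤ (p : ℝ) ^ (K + 1) := by
            gcongr
            exact_mod_cast hpp
          calc (2 : ℝ) / (p : ℝ) ^ (K + 1) ≤ 2 / 2 ^ (K + 1) := by gcongr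
            _ = 1 / 2 ^ K := by rw [pow_succ]; field_simp
      _ = ((SP P).card : ℝ) * (1 / 2 ^ K * N) := by rw [sum_const, nsmul_eq_mul]
      _ ≤ (P + 1) * (1 / 2 ^ K * N) := by
          gcongr
          exact_mod_cast SP_card P
      _ = (P + 1) / 2 ^ K * N := by ring
  · rw [sum_mul]
    apply sum_le_sum
    intro p hp
    have hpp := (SP_prime (Finset.mem_sdiff.1 hp).1).pos
    rw [sum_add_distrib, add_mul]
    apply add_le_add
    · exact count_dvd N hpp (norm_nonneg _)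
    · have := count_dvd N (pow_pos hpp 2) (show (0 : ℝ) ≤ 2 by norm_num)
      push_cast at this
      exact this

/-- the series over the primes -/
noncomputable def pr (g : ℕ → ℂ) (p : ℕ) : ℝ := if p.Prime then ‖1 - g p‖ / p else 0

theorem pr_tail {g : ℕ → ℂ} (hs : Summable (pr g)) {η : ℝ} (hη : 0 < η) : ∃ P₀ : ℕ, ∀ P ≥ P₀, ∀ N : ℕ,
    ∑ p ∈ SP N \ SP P, (‖1 - g p‖ / p + 2 / (p : ℝ) ^ 2) ≤ η := by
  have h1 : Summable (fun p : ℕ => pr g p + 2 / (p : ℝ) ^ 2) :=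
    hs.add ((Real.summable_one_div_nat_pow.2 (by norm_num : 1 < 2)).mul_left 2 |>.congr fun p => by ring)
  rw [summable_iff_vanishing_norm] at h1
  obtain ⟨s, hs⟩ := h1 η hη
  refine ⟨s.sup id, fun P hP N => ?_⟩
  have h2 := hs (SP N \ SP P) (by
    rw [disjoint_left]
    intro p hp hps
    rw [Finset.mem_sdiff, mem_SP, mem_SP] at hp
    have h3 : p ≤ s.sup id := le_sup (f := id) hps
    exact hp.2 ⟨hp.1.1, h3.trans hP, hp.1.2.2⟩)
  rw [Real.norm_eq_abs] at h2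
  refine le_trans (le_of_eq ?_) ((le_abs_self _).trans h2.le)
  apply sum_congr rfl
  intro p hp
  rw [Finset.mem_sdiff] at hp
  unfold pr
  rw [if_pos (SP_prime hp.1)]

/-- the approximation in mean -/
theorem approx {g : ℕ → ℂ} (hg1 : g 1 = 1) (hg : ∀ n, ‖g n‖ ≤ 1) (hs : Summable (pr g)) {η : ℝ}
    (hη : 0 < η) : ∃ P₀ : ℕ, ∀ P ≥ P₀, ∃ K₀ : ℕ, ∀ K ≥ K₀, ∀ N ≥ P,
      ∑ n ∈ Icc 1 N, ‖g3 g n - VV (SP P) K (GG g) n‖ ≤ η * N := by
  obtain ⟨P₀, hP₀⟩ := pr_tail hs (η := η / 2) (by positivity)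
  refine ⟨P₀, fun P hP => ?_⟩
  have h1 : Tendsto (fun K : ℕ => ((P : ℝ) + 1) * (1 / 2) ^ K) atTop (𝓝 (((P : ℝ) + 1) * 0)) :=
    (tendsto_pow_atTop_nhds_zero_of_lt_one (by norm_num) (by norm_num)).const_mul _
  rw [mul_zero] at h1
  obtain ⟨K₀, hK₀⟩ := eventually_atTop.1 (h1.eventually (ge_mem_nhds (by positivity : (0 : ℝ) < η / 2)))
  refine ⟨K₀, fun K hK N hN => (sum_bound hg1 hg hN).trans ?_⟩
  apply mul_le_mul_of_nonneg_right _ (Nat.cast_nonneg _)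
  have h2 := hK₀ K hK
  have h3 : ((P : ℝ) + 1) * (1 / 2) ^ K = (P + 1) / 2 ^ K := by
    rw [one_div, inv_pow]; rfl
  rw [h3] at h2
  have := hP₀ P hP N
  linarith

/-- sums over an affine image of a period -/
theorem affine_sum {M : ℕ} (hM : 0 < M) (h3 : Nat.Coprime 3 M) (f : ℕ → ℂ) :
    ∑ r ∈ range M, f ((3 * r + 1) % M) = ∑ r ∈ range M, f r := by
  have h1 : Set.InjOn (fun r => (3 * r + 1) % M) (range M : Finset ℕ) := by
    intro x hx y hy hxy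
    rw [mem_coe, mem_range] at hx hy
    have h2 : 3 * x + 1 ≡ 3 * y + 1 [MOD M] := hxy
    have h4 : 3 * x ≡ 3 * y [MOD M] := Nat.ModEq.add_right_cancel' 1 h2
    have h5 : x ≡ y [MOD M] := Nat.ModEq.cancel_left_of_coprime (by rw [Nat.gcd_comm]; exact h3) h4
    exact Nat.ModEq.eq_of_lt_of_lt h5 hx hy
  rw [← sum_image (f := f) h1]
  congr 1
  apply eq_of_subset_of_card_le
  · intro x hx
    rw [mem_image] at hx
    obtain ⟨r, _, rfl⟩ := hx
    exact mem_range.2 (Nat.mod_lt _ hM)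
  · rw [card_image_of_injOn h1]

theorem MM_even {S : Finset ℕ} {K : ℕ} (h2 : 2 ∈ S) (hK : 1 ≤ K) : 2 ∣ MM S K :=
  (dvd_pow_self 2 (by omega)).trans (Finset.dvd_prod_of_mem (fun p => p ^ K) h2)

theorem MM_three {S : Finset ℕ} {K : ℕ} (hS : ∀ p ∈ S, p.Prime) (h3 : 3 ∉ S) : Nat.Coprime 3 (MM S K) := by
  unfold MM
  apply Nat.Coprime.prod_right
  intro q hq
  apply Nat.Coprime.pow_right
  exact (Nat.coprime_primes Nat.prime_three (hS q hq)).2 fun h => h3 (h ▸ hq)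

/-- the mean of the odd part -/
theorem odd_mean {S : Finset ℕ} {K : ℕ} (hS : ∀ p ∈ S, p.Prime) (h2 : 2 ∈ S) (h3 : 3 ∉ S) (hK : 1 ≤ K)
    {g : ℕ → ℂ} (hg1 : g 1 = 1) :
    (∑ r ∈ range (MM S K), (if r % 2 = 0 then 0 else VV S K (GG g) (3 * r + 1))) / (MM S K : ℂ) =
      (lm 2 K (GG g 2) - 1 / 2) * ∏ p ∈ S.erase 2, lm p K (GG g p) := by
  have hM := MM_pos hS K
  have hev := MM_even h2 hK
  set G' : ℕ → ℕ → ℂ := fun p j => if p = 2 ∧ j = 0 then 0 else GG g p j with hG'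
  have e1 : ∀ m : ℕ, (if m % 2 = 0 then VV S K (GG g) m else 0) = VV S K G' m := by
    intro m
    unfold VV
    rcases Nat.mod_two_eq_zero_or_one m with h | h
    · rw [if_pos h]
      apply prod_congr rfl
      intro p _
      rw [hG']
      simp only
      rw [if_neg]
      rintro ⟨rfl, h0⟩
      unfold ee at h0
      rw [card_eq_zero, filter_eq_empty_iff] at h0
      exact h0 (mem_range.2 hK) (by rw [zero_add, pow_one]; exact Nat.dvd_of_mod_eq_zero h)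
    · rw [if_neg (by omega)]
      symm
      apply prod_eq_zero h2
      rw [hG']
      simp only [ee_zero (show ¬ 2 ∣ m by omega), and_self, if_true]
  have e2 : ∀ r ∈ range (MM S K), (if r % 2 = 0 then 0 else VV S K (GG g) (3 * r + 1)) =
      (fun m => if m % 2 = 0 then VV S K (GG g) m else 0) ((3 * r + 1) % MM S K) := by
    intro r _
    simp only
    rw [Nat.mod_mod_of_dvd _ hev, VV_mod]
    rcases Nat.mod_two_eq_zero_or_one r with h | h
    · rw [if_pos h, if_neg (by omega)]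
    · rw [if_neg (by omega), if_pos (by omega)]
  rw [sum_congr rfl e2, affine_sum hM (MM_three hS h3) (fun m => if m % 2 = 0 then VV S K (GG g) m else 0)]
  simp only [e1]
  rw [VV_mean hS, ← mul_prod_erase _ _ h2]
  congr 1
  · rw [lm_eq (by norm_num), lm_eq (by norm_num)]
    obtain ⟨k, rfl⟩ : ∃ k, K = k + 1 := ⟨K - 1, by omega⟩
    rw [sum_range_succ', sum_range_succ']
    have a1 : ∀ j ∈ range k, G' 2 (j + 1) / ((2 : ℕ) : ℂ) ^ (j + 1) = GG g 2 (j + 1) / ((2 : ℕ) : ℂ) ^ (j + 1) := by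
      intro j _
      rw [hG']
      simp
    have a2 : G' 2 0 = 0 := by rw [hG']; simp
    have a3 : G' 2 (k + 1) = GG g 2 (k + 1) := by rw [hG']; simp
    have a4 : GG g 2 0 = 1 := by unfold GG; rw [pow_zero, hg1]
    rw [sum_congr rfl a1, a2, a3, a4]
    push_cast
    ring
  · apply prod_congr rfl
    intro p hp
    have hp2 : p ≠ 2 := (mem_erase.1 hp).1
    congr 1
    funext j
    rw [hG']
    simp [hp2]

/-- the mean of the whole -/
theorem whole_mean {S : Finset ℕ} {K : ℕ} (hS : ∀ p ∈ S, p.Prime) (h2 : 2 ∈ S) (h3 : 3 ∉ S) (hK : 1 ≤ K)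
    {g : ℕ → ℂ} (hg1 : g 1 = 1) :
    (∑ r ∈ range (MM S K), (VV S K (GG g) r + if r % 2 = 0 then 0 else VV S K (GG g) (3 * r + 1))) /
      (MM S K : ℂ) = (2 * lm 2 K (GG g 2) - 1 / 2) * ∏ p ∈ S.erase 2, lm p K (GG g p) := by
  rw [sum_add_distrib, add_div, odd_mean hS h2 h3 hK hg1, VV_mean hS, ← mul_prod_erase _ _ h2]
  ring

/-- the limit of the means -/
theorem mean_limit {g : ℕ → ℂ} (hg : ∀ n, ‖g n‖ ≤ 1) {P : ℕ} (hP : 2 ≤ P) {η : ℝ} (hη : 0 < η) :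
    ∃ K₀ : ℕ, ∀ K ≥ K₀, ‖(2 * lm 2 K (GG g 2) - 1 / 2) * ∏ p ∈ (SP P).erase 2, lm p K (GG g p) -
      (2 * LF g 2 - 1 / 2) * ∏ p ∈ (SP P).erase 2, LF g p‖ ≤ η := by
  have h1 : Tendsto (fun K : ℕ => (9 * ((P : ℝ) + 1)) * (1 / 2) ^ K) atTop (𝓝 ((9 * ((P : ℝ) + 1)) * 0)) :=
    (tendsto_pow_atTop_nhds_zero_of_lt_one (by norm_num) (by norm_num)).const_mul _
  rw [mul_zero] at h1
  obtain ⟨K₀, hK₀⟩ := eventually_atTop.1 (h1.eventually (ge_mem_nhds hη))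
  refine ⟨K₀, fun K hK => ?_⟩
  have h2 := hK₀ K hK
  have e0 : (1 / 2 : ℝ) ^ K = 1 / 2 ^ K := by rw [one_div, inv_pow, one_div]
  rw [e0] at h2
  set x := lm 2 K (GG g 2) with hx
  set y := LF g 2 with hy
  set A := ∏ p ∈ (SP P).erase 2, lm p K (GG g p) with hA
  set B := ∏ p ∈ (SP P).erase 2, LF g p with hB
  have a1 : ‖x - y‖ ≤ 2 / 2 ^ K := lm_lf hg le_rfl K
  have a2 : ‖A - B‖ ≤ (P + 1) * (2 / 2 ^ K) := by
    refine (prod_sub_le _ _ _ (fun p hp => ?_) (fun p hp => ?_)).trans ?_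
    · exact lm_norm (SP_prime (mem_of_mem_erase hp)).pos fun _ => hg _
    · exact lf_norm hg (SP_prime (mem_of_mem_erase hp)).two_le
    · calc ∑ p ∈ (SP P).erase 2, ‖lm p K (GG g p) - LF g p‖ ≤ ∑ _p ∈ (SP P).erase 2, (2 / 2 ^ K : ℝ) := by
            apply sum_le_sum
            intro p hp
            exact lm_lf hg (SP_prime (mem_of_mem_erase hp)).two_le K
        _ = (((SP P).erase 2).card : ℝ) * (2 / 2 ^ K) := by rw [sum_const, nsmul_eq_mul]
        _ ≤ (P + 1) * (2 / 2 ^ K) := by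
            gcongr
            exact_mod_cast (card_erase_le).trans (SP_card P)
  have a3 : ‖A‖ ≤ 1 := prod_norm_le _ _ fun p hp => lm_norm (SP_prime (mem_of_mem_erase hp)).pos fun _ => hg _
  have a4 : ‖y‖ ≤ 1 := lf_norm hg le_rfl
  have e1 : (2 * x - 1 / 2) * A - (2 * y - 1 / 2) * B = 2 * (x - y) * A + (2 * y - 1 / 2) * (A - B) := by ring
  rw [e1]
  refine (norm_add_le _ _).trans ?_
  rw [norm_mul, norm_mul, norm_mul]
  have a5 : ‖(2 : ℂ)‖ = 2 := by simp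
  have a6 : ‖2 * y - 1 / 2‖ ≤ 5 / 2 := by
    refine (norm_sub_le _ _).trans ?_
    rw [norm_mul, a5]
    have : ‖(1 / 2 : ℂ)‖ = 1 / 2 := by simp
    rw [this]
    linarith
  rw [a5]
  have b1 : 2 * ‖x - y‖ * ‖A‖ ≤ 2 * (2 / 2 ^ K) * 1 := by gcongr
  have b2 : ‖2 * y - 1 / 2‖ * ‖A - B‖ ≤ 5 / 2 * ((P + 1) * (2 / 2 ^ K)) := by gcongr
  have b3 : 2 * (2 / 2 ^ K) * 1 + 5 / 2 * (((P : ℝ) + 1) * (2 / 2 ^ K)) ≤ 9 * ((P : ℝ) + 1) * (1 / 2 ^ K) := by
    have : (0 : ℝ) ≤ 1 / 2 ^ K := by positivity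
    have hP0 : (0 : ℝ) ≤ P := Nat.cast_nonneg _
    have e2 : (2 : ℝ) / 2 ^ K = 2 * (1 / 2 ^ K) := by ring
    rw [e2]
    nlinarith [mul_nonneg hP0 this]
  linarith

end Pool.Agent.W5h41.DL
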