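import Pool.Agent.W5h41.DL.D
import Pool.Agent.W5h41.DL.F

set_option autoImplicit false

/-! # Multiplicative functions along the trajectories of the Collatz map -/

namespace Pool.Agent.W5h41.DL

open Finset Filter Topology
open Pool.Agent.W5h47.BD (T)

/-- the periodic approximation with the terms `3 n + 1` -/
noncomputable def WW (S : Finset ℕ) (K : ℕ) (g : ℕ → ℂ) (r : ℕ) : ℂ :=
  VV S K (GG g) r + if r % 2 = 0 then 0 else VV S K (GG g) (3 * r + 1)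

theorem WW_mod {S : Finset ℕ} {K : ℕ} (h2 : 2 ∈ S) (hK : 1 ≤ K) (g : ℕ → ℂ) (n : ℕ) :
    WW S K g (n % MM S K) = WW S K g n := by
  unfold WW
  rw [VV_mod, Nat.mod_mod_of_dvd _ (MM_even h2 hK), ← VV_mod (GG g) (3 * (n % MM S K) + 1),
    ← VV_mod (GG g) (3 * n + 1)]
  have a3 : (3 * (n % MM S K) + 1) % MM S K = (3 * n + 1) % MM S K := by
    rw [Nat.add_mod, Nat.mul_mod, Nat.mod_mod, ← Nat.mul_mod, ← Nat.add_mod]
  rw [a3]

/-- the function with the terms `3 n + 1` -/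
noncomputable def UU (g : ℕ → ℂ) (n : ℕ) : ℂ := g3 g n + if n % 2 = 0 then 0 else g3 g (3 * n + 1)

theorem lp_part {g : ℕ → ℂ} (hg1 : g 1 = 1) (hg : ∀ n, ‖g n‖ ≤ 1) (hs : Summable (pr g)) {ρ : ℂ}
    (hlim : Tendsto (fun P : ℕ => (2 * LF g 2 - 1 / 2) * ∏ p ∈ (SP P).erase 2, LF g p) atTop
      (𝓝 (3 / 2 * ρ))) (c : ℂ →ₗ[ℝ] ℝ) (hc : ∀ z, |c z| ≤ ‖z‖) :
    LP (fun n => 1 / 2 * c (UU g n - 3 / 2 * ρ)) := by
  intro η hη
  obtain ⟨P₀, hP₀⟩ := approx hg1 hg hs (η := η / 5) (by positivity)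
  rw [Metric.tendsto_atTop] at hlim
  obtain ⟨P₁, hP₁⟩ := hlim η hη
  obtain ⟨P, hPd⟩ : ∃ P : ℕ, P = max (max P₀ P₁) 2 := ⟨_, rfl⟩
  have hP0 : P₀ ≤ P := by rw [hPd]; exact (le_max_left _ _).trans (le_max_left _ _)
  have hP1 : P₁ ≤ P := by rw [hPd]; exact (le_max_right _ _).trans (le_max_left _ _)
  have hP2 : 2 ≤ P := by rw [hPd]; exact le_max_right _ _
  obtain ⟨K₀, hK₀⟩ := hP₀ P hP0
  obtain ⟨K₁, hK₁⟩ := mean_limit hg hP2 hη
  obtain ⟨K, hKd⟩ : ∃ K : ℕ, K = max (max K₀ K₁) 1 := ⟨_, rfl⟩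
  have hK0 : K₀ ≤ K := by rw [hKd]; exact (le_max_left _ _).trans (le_max_left _ _)
  have hK1 : K₁ ≤ K := by rw [hKd]; exact (le_max_right _ _).trans (le_max_left _ _)
  have hK2 : 1 ≤ K := by rw [hKd]; exact le_max_right _ _
  have h1 := hK₀ K hK0
  have h2 := hK₁ K hK1
  have h3 := hP₁ P hP1
  rw [Complex.dist_eq] at h3
  have hSp : ∀ p ∈ SP P, p.Prime := fun p hp => SP_prime hp
  have hS2 : 2 ∈ SP P := mem_SP.2 ⟨by norm_num, hP2, Nat.prime_two⟩
  have hS3 : 3 ∉ SP P := fun h => (mem_SP.1 h).1 rfl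
  have hM := MM_pos hSp K
  have hMC : ((MM (SP P) K : ℕ) : ℂ) ≠ 0 := by exact_mod_cast hM.ne'
  have h30 : ¬ 3 ∣ MM (SP P) K := by
    intro h
    have := MM_three (K := K) hSp hS3
    rw [Nat.Prime.coprime_iff_not_dvd Nat.prime_three] at this
    exact this h
  set w : ℕ → ℝ := fun n => ‖g3 g n - VV (SP P) K (GG g) n‖ with hw
  have hw0 : ∀ n, 0 ≤ w n := fun _ => norm_nonneg _
  have hw2 : ∀ n, w n ≤ 2 := by
    intro n
    refine (norm_sub_le _ _).trans ?_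
    have := g3_norm hg n
    have := VV_norm hg (SP P) K n
    linarith
  have key : ∀ n : ℕ, |1 / 2 * c (UU g n - 3 / 2 * ρ) - 1 / 2 * c (WW (SP P) K g (n % MM (SP P) K) - 3 / 2 * ρ)|
      ≤ 1 / 2 * (w n + if n % 2 = 0 then 0 else w (3 * n + 1)) := by
    intro n
    rw [WW_mod hS2 hK2, ← mul_sub, ← map_sub, sub_sub_sub_cancel_right, abs_mul,
      abs_of_pos (by norm_num : (0 : ℝ) < 1 / 2)]
    apply mul_le_mul_of_nonneg_left _ (by norm_num)
    refine (hc _).trans ?_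
    unfold UU WW
    split_ifs with h0
    · simp only [add_zero]
      exact le_rfl
    · have e1 : g3 g n + g3 g (3 * n + 1) - (VV (SP P) K (GG g) n + VV (SP P) K (GG g) (3 * n + 1)) =
          (g3 g n - VV (SP P) K (GG g) n) + (g3 g (3 * n + 1) - VV (SP P) K (GG g) (3 * n + 1)) := by ring
      rw [e1]
      exact norm_add_le _ _
  refine ⟨MM (SP P) K, fun _ => 1 / (MM (SP P) K : ℝ), fun r => 1 / 2 * c (WW (SP P) K g r - 3 / 2 * ρ), hM,
    sta_unif hM h30, fun n => ?_, ?_, max P 1, fun N hN => ?_⟩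
  · refine (key n).trans ?_
    have := hw2 n
    have := hw2 (3 * n + 1)
    split_ifs <;> linarith
  · have e1 : ∑ r ∈ range (MM (SP P) K), 1 / (MM (SP P) K : ℝ) * (1 / 2 * c (WW (SP P) K g r - 3 / 2 * ρ)) =
        1 / 2 * c ((∑ r ∈ range (MM (SP P) K), WW (SP P) K g r) / (MM (SP P) K : ℂ) - 3 / 2 * ρ) := by
      have e2 : (∑ r ∈ range (MM (SP P) K), WW (SP P) K g r) / (MM (SP P) K : ℂ) - 3 / 2 * ρ =
          (1 / (MM (SP P) K : ℝ)) • ∑ r ∈ range (MM (SP P) K), (WW (SP P) K g r - 3 / 2 * ρ) := by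
        rw [sum_sub_distrib, sum_const, card_range, nsmul_eq_mul, Complex.real_smul]
        push_cast
        field_simp
      rw [e2, map_smul, map_sum, smul_eq_mul, ← mul_sum, ← mul_sum]
      ring
    rw [e1, abs_mul, abs_of_pos (by norm_num : (0 : ℝ) < 1 / 2)]
    have e3 : ∑ r ∈ range (MM (SP P) K), WW (SP P) K g r = ∑ r ∈ range (MM (SP P) K),
      (VV (SP P) K (GG g) r + if r % 2 = 0 then 0 else VV (SP P) K (GG g) (3 * r + 1)) := rfl
    rw [e3, whole_mean hSp hS2 hS3 hK2 hg1]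
    have h4 := hc ((2 * lm 2 K (GG g 2) - 1 / 2) * ∏ p ∈ (SP P).erase 2, lm p K (GG g p) - 3 / 2 * ρ)
    have h5 := norm_sub_le_norm_sub_add_norm_sub
      ((2 * lm 2 K (GG g 2) - 1 / 2) * ∏ p ∈ (SP P).erase 2, lm p K (GG g p))
      ((2 * LF g 2 - 1 / 2) * ∏ p ∈ (SP P).erase 2, LF g p) (3 / 2 * ρ)
    linarith
  · have h4 := ev_error hw0 (by positivity : 0 ≤ η / 5) (N₀ := P) h1 hN
    calc ∑ n ∈ Icc 1 N, |1 / 2 * c (UU g n - 3 / 2 * ρ) -
          1 / 2 * c (WW (SP P) K g (n % MM (SP P) K) - 3 / 2 * ρ)|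
        ≤ ∑ n ∈ Icc 1 N, 1 / 2 * (w n + if n % 2 = 0 then 0 else w (3 * n + 1)) :=
          sum_le_sum fun n _ => key n
      _ = 1 / 2 * ∑ n ∈ Icc 1 N, (w n + if n % 2 = 0 then 0 else w (3 * n + 1)) := by rw [mul_sum]
      _ ≤ 1 / 2 * (5 * (η / 5) * N) := by gcongr
      _ ≤ η * N := by
          have : 0 ≤ η * N := by positivity
          linarith

theorem mc_part {g : ℕ → ℂ} (hgm : Mul g) (hg : ∀ n, ‖g n‖ ≤ 1) {ρ : ℂ} (c : ℂ →ₗ[ℝ] ℝ)
    (hc : ∀ z, |c z| ≤ ‖z‖) (hlp : LP (fun n => 1 / 2 * c (UU g n - 3 / 2 * ρ))) :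
    MC (fun n => c (g n)) (c ρ) := by
  have h1 := mt_smul (mt_of_lp hlp) 2
  have h2 := mt_smul mt_par (-(c ρ))
  have h3 : MT (fun n => c (g n) - c (g3 g n)) := by
    refine mt_dom (mt_smul mt_three 2) fun n hn => ?_
    by_cases h : n % 3 = 0
    · rw [if_pos h, mul_one, ← map_sub]
      refine (hc _).trans ((norm_sub_le _ _).trans ?_)
      have := hg n
      have := g3_norm hg n
      linarith
    · rw [if_neg h, mul_zero, ← g3_eq hgm (by omega) (by omega), sub_self, abs_zero]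
  unfold MC
  refine mt_congr (mt_add (mt_add h1 h2) h3) fun n hn => ?_
  unfold ev UU
  have h4 : c (3 / 2 * ρ) = 3 / 2 * c ρ := by
    have : (3 / 2 : ℂ) * ρ = ((3 / 2 : ℝ)) • ρ := by rw [Complex.real_smul]; push_cast; ring
    rw [this, map_smul, smul_eq_mul]
  split_ifs with h0
  · rw [map_sub, add_zero, h4]
    ring
  · rw [map_sub, map_add, h4, ← g3_eq hgm (n := 3 * n + 1) (by omega) (by omega)]
    ring

/-- multiplicative functions: the mean along the trajectories -/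
theorem comean_mul {g : ℕ → ℂ} (hgm : Mul g) (hg : ∀ n, ‖g n‖ ≤ 1) (hs : Summable (pr g)) {ρ : ℂ}
    (hlim : Tendsto (fun P : ℕ => (2 * LF g 2 - 1 / 2) * ∏ p ∈ (SP P).erase 2, LF g p) atTop
      (𝓝 (3 / 2 * ρ))) : CoMean g ρ := by
  have h1 := mc_part hgm hg Complex.reLm (fun z => Complex.abs_re_le_norm z)
    (lp_part hgm.1 hg hs hlim Complex.reLm (fun z => Complex.abs_re_le_norm z))
  have h2 := mc_part hgm hg Complex.imLm (fun z => Complex.abs_im_le_norm z)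
    (lp_part hgm.1 hg hs hlim Complex.imLm (fun z => Complex.abs_im_le_norm z))
  exact comean_of_parts hg h1 h2

end Pool.Agent.W5h41.DL
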