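import Pool.Agent.W5h41.DL.G

set_option autoImplicit false

/-! # The Euler product -/

namespace Pool.Agent.W5h41.DL

open Finset Filter Topology

/-- the factor at the prime two -/
noncomputable def F2 (g : ℕ → ℂ) : ℂ := 1 / 3 + 2 / 3 * ∑' j : ℕ, g (2 ^ (j + 1)) / 2 ^ (j + 1)

/-- the primes `5 ≤ p < P` -/
def S5 (P : ℕ) : Finset ℕ := (range P).filter (fun p => p.Prime ∧ 5 ≤ p)

theorem S5_eq (P : ℕ) : (SP P).erase 2 = S5 (P + 1) := by
  ext p
  unfold S5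
  rw [mem_erase, mem_SP, mem_filter, mem_range]
  constructor
  · rintro ⟨h1, h2, h3, h4⟩
    refine ⟨by omega, h4, ?_⟩
    have h5 := h4.two_le
    by_contra h6
    have h7 : p = 4 := by omega
    subst h7
    revert h4
    decide
  · rintro ⟨h1, h2, h3⟩
    exact ⟨by omega, by omega, by omega, h2⟩

theorem F2_eq {g : ℕ → ℂ} (hg1 : g 1 = 1) (hg : ∀ n, ‖g n‖ ≤ 1) : 2 * LF g 2 - 1 / 2 = 3 / 2 * F2 g := by
  unfold LF F2
  have h1 := (lf_summable hg (p := 2) le_rfl).sum_add_tsum_nat_add 1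
  rw [← h1, sum_range_one, pow_zero, hg1]
  push_cast
  ring

theorem lf_sub_one {g : ℕ → ℂ} (hg1 : g 1 = 1) (hg : ∀ n, ‖g n‖ ≤ 1) {p : ℕ} (hp : 2 ≤ p) :
    ‖LF g p - 1‖ ≤ ‖1 - g p‖ / p + 2 / (p : ℝ) ^ 2 := by
  have hp2 : (2 : ℝ) ≤ p := by exact_mod_cast hp
  have hp0 : (0 : ℝ) < p := by linarith
  have hpc : (p : ℂ) ≠ 0 := by
    have : p ≠ 0 := by omega
    exact_mod_cast this
  have h1 : 1 / (p : ℝ) < 1 := by rw [div_lt_one (by linarith)]; linarith
  have h2 : (0 : ℝ) < 1 - 1 / (p : ℝ) := by linarith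
  unfold LF
  rw [← (lf_summable hg hp).sum_add_tsum_nat_add 2, sum_range_succ, sum_range_one, pow_zero, pow_one, hg1]
  set R : ℂ := ∑' j : ℕ, g (p ^ (j + 2)) / (p : ℂ) ^ (j + 2) with hR
  have e0 : (1 - 1 / (p : ℂ)) * (1 / 1 + g p / (p : ℂ) ^ 1 + R) - 1 =
      -((1 - g p) / p) + (-(g p / (p : ℂ) ^ 2) + (1 - 1 / (p : ℂ)) * R) := by
    field_simp
    ring
  rw [pow_zero, e0]
  have e1 : ‖(1 - 1 / (p : ℂ))‖ = 1 - 1 / (p : ℝ) := by
    have : (1 - 1 / (p : ℂ)) = ((1 - 1 / (p : ℝ) : ℝ) : ℂ) := by push_cast; rfl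
    rw [this, Complex.norm_real, Real.norm_of_nonneg h2.le]
  have e2 : ‖R‖ ≤ (1 / (p : ℝ)) ^ 2 / (1 - 1 / (p : ℝ)) := by
    rw [← geom_tail hp 2]
    have hs : Summable (fun j : ℕ => (1 / (p : ℝ)) ^ (j + 2)) :=
      (summable_nat_add_iff 2).2 (summable_geometric_of_lt_one (by positivity) h1)
    apply tsum_of_norm_bounded hs.hasSum
    intro j
    rw [norm_div, norm_pow, Complex.norm_natCast, one_div, inv_pow, ← one_div]
    gcongr
    exact hg _
  have e3 : (1 - 1 / (p : ℝ)) * ‖R‖ ≤ (1 / (p : ℝ)) ^ 2 := by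
    calc (1 - 1 / (p : ℝ)) * ‖R‖ ≤ (1 - 1 / (p : ℝ)) * ((1 / (p : ℝ)) ^ 2 / (1 - 1 / (p : ℝ))) := by gcongr
      _ = (1 / (p : ℝ)) ^ 2 := by rw [mul_div_assoc', mul_div_cancel_left₀ _ h2.ne']
  have e4 : ‖g p / (p : ℂ) ^ 2‖ ≤ (1 / (p : ℝ)) ^ 2 := by
    rw [norm_div, norm_pow, Complex.norm_natCast, one_div, inv_pow, ← one_div]
    gcongr
    exact hg _
  refine (norm_add_le _ _).trans ?_
  have e5 := norm_add_le (-(g p / (p : ℂ) ^ 2)) ((1 - 1 / (p : ℂ)) * R)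
  rw [norm_neg, norm_mul, e1] at e5
  rw [norm_neg, norm_div, Complex.norm_natCast]
  have e6 : (2 : ℝ) / (p : ℝ) ^ 2 = (1 / (p : ℝ)) ^ 2 + (1 / (p : ℝ)) ^ 2 := by
    rw [div_pow, one_pow]; ring
  rw [e6]
  linarith

/-- the product converges -/
theorem lim_exists {g : ℕ → ℂ} (hg1 : g 1 = 1) (hg : ∀ n, ‖g n‖ ≤ 1) (hs : Summable (pr g)) :
    ∃ L : ℂ, Tendsto (fun P : ℕ => ∏ p ∈ S5 P, LF g p) atTop (𝓝 L) := by
  set f : ℕ → ℂ := fun p => if p.Prime ∧ 5 ≤ p then LF g p - 1 else 0 with hf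
  have h1 : Summable (fun p => ‖f p‖) := by
    have h2 : Summable (fun p : ℕ => pr g p + 2 / (p : ℝ) ^ 2) :=
      hs.add ((Real.summable_one_div_nat_pow.2 (by norm_num : 1 < 2)).mul_left 2 |>.congr fun p => by ring)
    refine Summable.of_nonneg_of_le (fun _ => norm_nonneg _) (fun p => ?_) h2
    rw [hf]
    simp only
    unfold pr
    split_ifs with h3 h4 h5
    · exact lf_sub_one hg1 hg h4.two_le
    · exact absurd h3.1 h4
    · rw [norm_zero]; positivity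
    · rw [norm_zero]; positivity
  have h2 := (multipliable_one_add_of_summable h1).hasProd.tendsto_prod_nat
  refine ⟨_, h2.congr fun P => ?_⟩
  unfold S5
  rw [prod_filter]
  apply prod_congr rfl
  intro p _
  rw [hf]
  simp only
  split_ifs
  · ring
  · ring

/-- MAIN THEOREM for multiplicative functions -/
theorem main_mul {g : ℕ → ℂ} (hgm : Mul g) (hg : ∀ n, ‖g n‖ ≤ 1) (hs : Summable (pr g)) :
    ∃ ρ : ℂ, Tendsto (fun P : ℕ => F2 g * ∏ p ∈ S5 P, LF g p) atTop (𝓝 ρ) ∧ CoMean g ρ := by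
  obtain ⟨L, hL⟩ := lim_exists hgm.1 hg hs
  refine ⟨F2 g * L, hL.const_mul _, comean_mul hgm hg hs ?_⟩
  have h1 := (hL.comp (tendsto_add_atTop_nat 1)).const_mul (3 / 2 * F2 g)
  rw [mul_assoc] at h1
  refine h1.congr fun P => ?_
  rw [S5_eq, F2_eq hgm.1 hg]
  rfl

/-- the squarefree numbers -/
noncomputable def sf (n : ℕ) : ℂ := if Squarefree n then 1 else 0

theorem sf_mul : Mul sf := by
  constructor
  · unfold sf; rw [if_pos squarefree_one]
  · intro m n h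
    unfold sf
    by_cases h1 : Squarefree m <;> by_cases h2 : Squarefree n <;> simp [Nat.squarefree_mul h, h1, h2]

theorem sf_norm (n : ℕ) : ‖sf n‖ ≤ 1 := by
  unfold sf; split_ifs <;> simp

theorem sf_pr : Summable (pr sf) := by
  have : pr sf = fun _ => 0 := by
    funext p
    unfold pr sf
    split_ifs with h1 h2
    · simp
    · exact absurd h1.squarefree h2
    · rfl
  rw [this]
  exact summable_zero

theorem sf_pow {p : ℕ} (hp : p.Prime) (j : ℕ) : sf (p ^ j) = if j ≤ 1 then 1 else 0 := by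
  unfold sf
  by_cases h : j ≤ 1
  · rw [if_pos h]
    interval_cases j
    · rw [pow_zero, if_pos squarefree_one]
    · rw [pow_one, if_pos hp.squarefree]
  · rw [if_neg h, if_neg]
    intro h1
    have := h1 p (by rw [← pow_two]; exact pow_dvd_pow p (by omega))
    exact hp.one_lt.ne' (Nat.isUnit_iff.1 this)

theorem sf_tsum {p : ℕ} (hp : p.Prime) : ∑' j : ℕ, sf (p ^ j) / (p : ℂ) ^ j = 1 + 1 / p := by
  rw [tsum_eq_sum (s := range 2)]
  · rw [sum_range_succ, sum_range_one, sf_pow hp, sf_pow hp, if_pos (by norm_num), if_pos le_rfl]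
    simp
  · intro j hj
    rw [mem_range] at hj
    rw [sf_pow hp, if_neg (by omega), zero_div]

theorem sf_lf {p : ℕ} (hp : p.Prime) : LF sf p = 1 - 1 / (p : ℂ) ^ 2 := by
  unfold LF
  rw [sf_tsum hp]
  ring

theorem sf_f2 : F2 sf = 2 / 3 := by
  have h1 := F2_eq sf_mul.1 sf_norm
  rw [sf_lf Nat.prime_two] at h1
  push_cast at h1
  have : F2 sf = 2 / 3 * (3 / 2 * F2 sf) := by ring
  rw [this, ← h1]
  norm_num

theorem sf_prod : Tendsto (fun P : ℕ => F2 sf * ∏ p ∈ S5 P, LF sf p) atTop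
    (𝓝 ((6 / Real.pi ^ 2 : ℝ) : ℂ)) := by
  have h1 := riemannZeta_eulerProduct (s := 2) (by norm_num)
  rw [riemannZeta_two] at h1
  have hpi : ((Real.pi : ℂ) ^ 2 / 6) ≠ 0 := by
    have : (Real.pi : ℂ) ≠ 0 := by exact_mod_cast Real.pi_ne_zero
    exact div_ne_zero (pow_ne_zero _ this) (by norm_num)
  have h2 := h1.inv₀ hpi
  have h3 : (((6 / Real.pi ^ 2 : ℝ)) : ℂ) = ((Real.pi : ℂ) ^ 2 / 6)⁻¹ := by
    push_cast; rw [inv_div]
  rw [h3]
  refine h2.congr' ?_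
  filter_upwards [eventually_ge_atTop 5] with P hP
  rw [sf_f2, ← prod_inv_distrib]
  have e1 : Nat.primesBelow P = insert 2 (insert 3 (S5 P)) := by
    ext p
    unfold Nat.primesBelow S5
    rw [mem_insert, mem_insert, mem_filter, mem_filter, mem_range]
    constructor
    · rintro ⟨h4, h5⟩
      by_cases h6 : 5 ≤ p
      · exact Or.inr (Or.inr ⟨h4, h5, h6⟩)
      · have h7 := h5.two_le
        have h8 : p ≠ 4 := by rintro rfl; revert h5; decide
        omega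
    · rintro (rfl | rfl | ⟨h4, h5, h6⟩)
      · exact ⟨by omega, Nat.prime_two⟩
      · exact ⟨by omega, Nat.prime_three⟩
      · exact ⟨h4, h5⟩
  have n3 : (3 : ℕ) ∉ S5 P := by
    unfold S5; rw [mem_filter]; omega
  have n2 : (2 : ℕ) ∉ insert 3 (S5 P) := by
    rw [mem_insert]; unfold S5; rw [mem_filter]; omega
  rw [e1, prod_insert n2, prod_insert n3]
  have e2 : ∀ p : ℕ, ((1 - (p : ℂ) ^ (-2 : ℂ))⁻¹)⁻¹ = 1 - 1 / (p : ℂ) ^ 2 := by
    intro p
    rw [inv_inv, Complex.cpow_neg, one_div]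
    norm_num
  simp only [e2]
  rw [← mul_assoc]
  congr 1
  · push_cast; norm_num
  · apply prod_congr rfl
    intro p hp
    unfold S5 at hp
    rw [mem_filter] at hp
    rw [sf_lf hp.2.1]

end Pool.Agent.W5h41.DL
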